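import Pool.Agent.Q154.BKC.EMB

/-!
# Project HD of helper274, job OBS: lemmas on the algebraic closure of the field of 2-adic numbers
-/

set_option autoImplicit false
set_option linter.unusedVariables false

namespace Pool.Agent.Q53.HD

open Pool.Agent.Q154.BKC (norm_aut)

/-- the absolute Galois group of the field of 2-adic numbers -/
abbrev G2 := Gal(PadicAlgCl 2/ℚ_[2])

/-- the algebraic closure of the field of 2-adic numbers -/
abbrev Om := PadicAlgCl 2

theorem stab_open (x : Om) : IsOpen {σ : G2 | σ x = x} := by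
  have h1 : IsOpen ((IntermediateField.adjoin ℚ_[2] {x}).fixingSubgroup : Set G2) := by
    have : FiniteDimensional ℚ_[2] (IntermediateField.adjoin ℚ_[2] {x}) :=
      IntermediateField.adjoin.finiteDimensional
        (Algebra.IsIntegral.isIntegral (R := ℚ_[2]) x)
    exact IntermediateField.fixingSubgroup_isOpen _
  have h2 : ((IntermediateField.adjoin ℚ_[2] {x}).fixingSubgroup : Set G2) = {σ : G2 | σ x = x} := by
    ext σ
    simp only [SetLike.mem_coe, Set.mem_ofPred_eq]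
    rw [IntermediateField.mem_fixingSubgroup_iff]
    constructor
    · intro h
      exact h x (IntermediateField.mem_adjoin_simple_self ℚ_[2] x)
    · intro h y hy
      have h3 : IntermediateField.adjoin ℚ_[2] {x} ≤
          IntermediateField.fixedField (Subgroup.zpowers σ) := by
        rw [IntermediateField.adjoin_simple_le_iff]
        rintro ⟨τ, hτ⟩
        obtain ⟨n, rfl⟩ := hτ
        have h4 : σ ∈ MulAction.stabilizer G2 x := h
        exact (MulAction.stabilizer G2 x).zpow_mem h4 n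
      exact h3 hy ⟨σ, Subgroup.mem_zpowers σ⟩
  rw [← h2]
  exact h1

theorem eval_open (x y : Om) : IsOpen {σ : G2 | σ x = y} := by
  rw [isOpen_iff_mem_nhds]
  intro σ hσ
  have h1 : IsOpen ((fun τ : G2 => σ⁻¹ * τ) ⁻¹' {τ : G2 | τ x = x}) :=
    (stab_open x).preimage (continuous_const_mul σ⁻¹)
  refine Filter.mem_of_superset (h1.mem_nhds ?_) ?_
  · simp
  · intro τ hτ
    simp only [Set.mem_preimage, Set.mem_ofPred_eq] at hτ hσ ⊢
    have h2 := congrArg σ hτ
    rw [← hσ, ← h2]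
    simp [AlgEquiv.mul_apply]

theorem eval_lc (x : Om) : IsLocallyConstant fun σ : G2 => σ x := by
  rw [IsLocallyConstant.iff_isOpen_fiber]
  intro y
  exact eval_open x y

theorem fix_Q {x : Om} (h : ∀ σ : G2, σ x = x) : ∃ a : ℚ_[2], algebraMap ℚ_[2] Om a = x := by
  have hfix : x ∈ (⊥ : IntermediateField ℚ_[2] (PadicAlgCl 2)) := by
    rw [InfiniteGalois.mem_bot_iff_fixed]
    exact h
  exact IntermediateField.mem_bot.1 hfix

theorem norm_ext (a : ℚ_[2]) : ‖algebraMap ℚ_[2] Om a‖ = ‖a‖ := PadicAlgCl.norm_extends 2 a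

/-- the norm of a nonzero 2-adic number is a power of two -/
theorem norm_pow2 {a : ℚ_[2]} (ha : a ≠ 0) : ∃ n : ℤ, ‖a‖ = 2 ^ n :=
  ⟨-a.valuation, by simpa using Padic.norm_eq_zpow_neg_valuation ha⟩

theorem norm_five : ‖(5 : ℚ_[2])‖ = 1 := by
  have h1 : ‖((5 : ℕ) : ℚ_[2])‖ = 1 := by
    rw [Padic.norm_natCast_eq_one_iff]
    decide
  simpa using h1

/-- a unit of the 2-adic integers -/
theorem sq_five {t : ℚ_[2]} (ht : ‖t‖ = 1) : ‖t ^ 2 - 5‖ = 1 / 4 := by
  let r : ℤ_[2] := ⟨t, ht.le⟩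
  have hr : ‖r‖ = 1 := ht
  have h1 : (8 : ℤ_[2]) ∣ r ^ 2 - 1 := by
    have h2 : IsUnit r := PadicInt.isUnit_iff.2 hr
    have h3 := h2.map (PadicInt.toZModPow (p := 2) 3)
    have h4 : PadicInt.toZModPow (p := 2) 3 (r ^ 2 - 1) = 0 := by
      rw [map_sub, map_pow, map_one]
      generalize PadicInt.toZModPow (p := 2) 3 r = z at h3
      revert h3
      revert z
      decide
    have h5 : r ^ 2 - 1 ∈ RingHom.ker (PadicInt.toZModPow (p := 2) 3) := h4
    rw [PadicInt.ker_toZModPow, Ideal.mem_span_singleton] at h5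
    have h6 : ((2 : ℕ) : ℤ_[2]) ^ 3 = 8 := by norm_num
    rwa [h6] at h5
  obtain ⟨w, hw⟩ := h1
  have h2 : r ^ 2 - 5 = 4 * (2 * w - 1) := by linear_combination hw
  have h3 : t ^ 2 - 5 = ((r ^ 2 - 5 : ℤ_[2]) : ℚ_[2]) := by
    push_cast
    rfl
  have h4 : ‖(2 * w - 1 : ℤ_[2])‖ = 1 := by
    rw [← PadicInt.isUnit_iff]
    have h5 : PadicInt.toZMod (p := 2) (2 * w - 1) ≠ 0 := by
      rw [map_sub, map_mul, map_one]
      have h6 : PadicInt.toZMod (p := 2) 2 = 0 := by
        have : PadicInt.toZMod (p := 2) ((2 : ℕ) : ℤ_[2]) = ((2 : ℕ) : ZMod 2) := map_natCast _ 2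
        rw [show ((2 : ℕ) : ℤ_[2]) = 2 by norm_num] at this
        rw [this]
        decide
      rw [h6, zero_mul]
      decide
    by_contra hcon
    apply h5
    have h7 : (2 * w - 1 : ℤ_[2]) ∈ IsLocalRing.maximalIdeal ℤ_[2] := by
      rwa [IsLocalRing.mem_maximalIdeal, mem_nonunits_iff]
    rw [← PadicInt.ker_toZMod] at h7
    exact h7
  rw [h3, h2]
  have h5 : ‖(4 * (2 * w - 1) : ℤ_[2])‖ = 1 / 4 := by
    rw [norm_mul, h4, mul_one]
    have h6 : (4 : ℤ_[2]) = ((2 : ℕ) : ℤ_[2]) ^ 2 := by norm_num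
    rw [h6, norm_pow, PadicInt.norm_p]
    norm_num
  exact h5

/-- the norms from the quadratic extension by the roots of five -/
theorem norm_form {a b : ℚ_[2]} (h : ¬ (a = 0 ∧ b = 0)) :
    ∃ n : ℤ, ‖a ^ 2 - 5 * b ^ 2‖ = ((2 : ℝ) ^ n) ^ 2 := by
  by_cases hb : b = 0
  · have ha : a ≠ 0 := fun ha => h ⟨ha, hb⟩
    obtain ⟨n, hn⟩ := norm_pow2 ha
    refine ⟨n, ?_⟩
    rw [hb, ← hn]
    simp
  obtain ⟨m, hm⟩ := norm_pow2 hb
  by_cases hab : ‖a‖ = ‖b‖
  · have hb' : ‖b‖ ≠ 0 := norm_ne_zero_iff.2 hb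
    have ht : ‖a / b‖ = 1 := by
      rw [norm_div, hab, div_self hb']
    have h1 := sq_five ht
    refine ⟨m - 1, ?_⟩
    have h2 : a ^ 2 - 5 * b ^ 2 = b ^ 2 * ((a / b) ^ 2 - 5) := by
      field_simp
    rw [h2, norm_mul, h1, norm_pow, hm, zpow_sub_one₀ (by norm_num)]
    ring
  · have h1 : ‖a ^ 2‖ ≠ ‖-(5 * b ^ 2)‖ := by
      rw [norm_neg, norm_mul, norm_five, one_mul, norm_pow, norm_pow]
      intro h2
      apply hab
      exact (sq_eq_sq₀ (norm_nonneg _) (norm_nonneg _)).1 h2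
    have h2 := Padic.add_eq_max_of_ne h1
    rw [← sub_eq_add_neg] at h2
    rw [h2, norm_neg, norm_mul, norm_five, one_mul, norm_pow, norm_pow]
    by_cases ha : a = 0
    · refine ⟨m, ?_⟩
      rw [ha, hm, norm_zero, zero_pow two_ne_zero]
      exact max_eq_right (by positivity)
    · obtain ⟨n, hn⟩ := norm_pow2 ha
      rcases le_total (‖a‖ ^ 2) (‖b‖ ^ 2) with h3 | h3
      · exact ⟨m, by rw [max_eq_right h3, hm]⟩
      · exact ⟨n, by rw [max_eq_left h3, hn]⟩

/-- five is not a square -/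
theorem five_ns (t : ℚ_[2]) : t ^ 2 ≠ 5 := by
  intro ht
  have h1 : ‖t‖ = 1 := by
    have h2 : ‖t‖ ^ 2 = 1 := by rw [← norm_pow, ht, norm_five]
    nlinarith [norm_nonneg t]
  have h2 := sq_five h1
  rw [ht, sub_self, norm_zero] at h2
  norm_num at h2

end Pool.Agent.Q53.HD
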