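import Pool.Agent.TH115.GD.Div

/-!
# Project HD (helper274), job GPT: the points of an elliptic curve over a finite field modulo two
-/

set_option autoImplicit false
set_option linter.all false

open WeierstrassCurve WeierstrassCurve.Affine
open scoped Classical

namespace Pool.Agent.Q53.HD

open Pool.Agent.TH115.GD

section
variable {F : Type} [Field F] [Fintype F]

/-- the class modulo squares -/
noncomputable def cl (x : F) : ZMod 2 := if IsSquare x then 0 else 1

theorem cl_zero {x : F} : cl x = 0 ↔ IsSquare x := by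
  unfold cl
  split_ifs with h
  · exact ⟨fun _ => h, fun _ => rfl⟩
  · exact ⟨fun h1 => absurd h1 (by decide), fun h1 => absurd h1 h⟩

theorem cl_mul (h2 : (2 : F) ≠ 0) {x y : F} (hx : x ≠ 0) (hy : y ≠ 0) :
    cl (x * y) = cl x + cl y := by
  have hF : ringChar F ≠ 2 := by
    intro h
    apply h2
    have := ringChar.Nat.cast_ringChar (R := F)
    rw [h] at this
    exact_mod_cast this
  have key : ∀ z : F, z ≠ 0 → (IsSquare z ↔ quadraticChar F z = 1) := fun z hz =>
    (quadraticChar_one_iff_isSquare hz).symm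
  have hd : ∀ z : F, z ≠ 0 → quadraticChar F z = 1 ∨ quadraticChar F z = -1 := fun z hz =>
    quadraticChar_dichotomy hz
  unfold cl
  rw [if_congr (key _ (mul_ne_zero hx hy)) rfl rfl, if_congr (key _ hx) rfl rfl,
    if_congr (key _ hy) rfl rfl, map_mul]
  rcases hd x hx with h | h <;> rcases hd y hy with h' | h' <;> rw [h, h'] <;> decide

variable {α β : F} (h2 : (2 : F) ≠ 0) (hα : α ≠ 0) (hβ : β ≠ 0) (hαβ : α ≠ β)

theorem fin_pt (α β : F) : Finite (Pt (crv α β) F) := by
  let f : Pt (crv α β) F → Option (F × F) := fun P => match P with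
    | .zero => none
    | .some x y _ => some (x, y)
  apply Finite.of_injective f
  intro P Q h
  match P, Q, h with
  | .zero, .zero, _ => rfl
  | .some x y h1, .some x' y' h1', h =>
    have h3 : (x, y) = (x', y') := Option.some.inj h
    obtain ⟨rfl, rfl⟩ := Prod.mk.inj h3
    rfl

include h2 hα hβ hαβ in
theorem d_add_F (P Q : Pt (crv α β) F) : ∃ u0 u1 : F, u0 ≠ 0 ∧ u1 ≠ 0 ∧
    d0 α β (P + Q) = u0 ^ 2 * (d0 α β P * d0 α β Q) ∧
    d1 α β (P + Q) = u1 ^ 2 * (d1 α β P * d1 α β Q) :=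
  d_add (K := F) (F := F) (Ω := Sep F) (crv α β) (isE α β (Sep F) h2 hα hβ hαβ) P Q

include h2 hα hβ hαβ in
/-- every class is the class of a point -/
theorem exists_class {c0 c1 : F} (h0 : c0 ≠ 0) (h1 : c1 ≠ 0) :
    ∃ P : Pt (crv α β) F, IsSquare (c0 * d0 α β P) ∧ IsSquare (c1 * d1 α β P) := by
  have hfin := fin_pt α β
  have hE := isE α β F h2 hα hβ hαβ
  have hn0 : ∀ P : Pt (crv α β) F, d0 α β P ≠ 0 := fun P => d0_ne hE P
  have hn1 : ∀ P : Pt (crv α β) F, d1 α β P ≠ 0 := fun P => d1_ne hE P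
  have hsq : ∀ u : F, cl (u ^ 2) = 0 := fun u => cl_zero.2 ⟨u, pow_two u⟩
  have e0 : ∀ P Q : Pt (crv α β) F, cl (d0 α β (P + Q)) = cl (d0 α β P) + cl (d0 α β Q) := by
    intro P Q
    obtain ⟨u0, u1, n0, n1, e0, e1⟩ := d_add_F h2 hα hβ hαβ P Q
    have a1 : d0 α β P ≠ 0 := d0_ne hE P
    have a2 : d0 α β Q ≠ 0 := d0_ne hE Q
    rw [e0, cl_mul h2 (pow_ne_zero 2 n0) (mul_ne_zero a1 a2), hsq, zero_add, cl_mul h2 a1 a2]
  have e1 : ∀ P Q : Pt (crv α β) F, cl (d1 α β (P + Q)) = cl (d1 α β P) + cl (d1 α β Q) := by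
    intro P Q
    obtain ⟨u0, u1, n0, n1, e0, e1⟩ := d_add_F h2 hα hβ hαβ P Q
    have a1 : d1 α β P ≠ 0 := d1_ne hE P
    have a2 : d1 α β Q ≠ 0 := d1_ne hE Q
    rw [e1, cl_mul h2 (pow_ne_zero 2 n1) (mul_ne_zero a1 a2), hsq, zero_add, cl_mul h2 a1 a2]
  let δ : Pt (crv α β) F →+ ZMod 2 × ZMod 2 := AddMonoidHom.mk'
    (fun P => (cl (d0 α β P), cl (d1 α β P))) fun P Q => Prod.ext (e0 P Q) (e1 P Q)
  let dbl : Pt (crv α β) F →+ Pt (crv α β) F := AddMonoidHom.mk' (fun P => P + P)
    fun P Q => add_add_add_comm P Q P Q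
  have hker : δ.ker = dbl.range := by
    apply le_antisymm
    · intro P hP
      have h3 : (cl (d0 α β P), cl (d1 α β P)) = (0, 0) := hP
      obtain ⟨a, ha⟩ := cl_zero.1 (Prod.mk.inj h3).1
      obtain ⟨b, hb⟩ := cl_zero.1 (Prod.mk.inj h3).2
      have na : a ≠ 0 := by
        rintro rfl
        exact hn0 P (by rw [ha, mul_zero])
      have nb : b ≠ 0 := by
        rintro rfl
        exact hn1 P (by rw [hb, mul_zero])
      exact half_F (K := F) (F := F) h2 hα hβ hαβ P
        ⟨a, na, by rw [mul_one, pow_two]; exact ha⟩ ⟨b, nb, by rw [mul_one, pow_two]; exact hb⟩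
    · rintro _ ⟨R, rfl⟩
      change δ (R + R) = 0
      rw [map_add]
      have : ∀ z : ZMod 2 × ZMod 2, z + z = 0 := by decide
      exact this _
  -- the points of order two
  let e : Fin 3 → F := ![0, α, β]
  have he : Function.Injective e := by
    intro i j h
    fin_cases i <;> fin_cases j <;> first | rfl | (exfalso; simp [e] at h; tauto)
  have hns : ∀ i, ((crv α β).baseChange F).toAffine.Nonsingular (e i) 0 := by
    intro i
    refine hE.nonsingular.2 ?_
    fin_cases i <;> simp [e]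
  let f : Option (Fin 3) → dbl.ker := fun o => match o with
    | none => 0
    | some i => ⟨Point.some (e i) 0 (hns i), (add_self_eq_zero_iff hE (hns i)).2 rfl⟩
  have hf : Function.Injective f := by
    intro o o' h
    match o, o', h with
    | none, none, _ => rfl
    | some i, some j, h =>
      have h3 : Point.some (e i) 0 (hns i) = Point.some (e j) 0 (hns j) := congrArg Subtype.val h
      rw [Point.some.injEq] at h3
      rw [he h3.1]
    | none, some j, h =>
      have h3 : (0 : Pt (crv α β) F) = Point.some (e j) 0 (hns j) := congrArg Subtype.val h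
      exact absurd h3 (by rw [Point.zero_def]; exact fun h => by cases h)
    | some j, none, h =>
      have h3 : Point.some (e j) 0 (hns j) = (0 : Pt (crv α β) F) := congrArg Subtype.val h
      exact absurd h3 (by rw [Point.zero_def]; exact fun h => by cases h)
  have hcard : 4 ≤ Nat.card dbl.ker := by
    have := Nat.card_le_card_of_injective f hf
    simpa using this
  have k1 := AddSubgroup.card_mul_index δ.ker
  have k2 := AddSubgroup.card_mul_index dbl.ker
  rw [AddSubgroup.index_ker] at k1 k2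
  rw [hker] at k1
  have hpos : 0 < Nat.card dbl.range := Nat.card_pos
  have k3 : Nat.card δ.range = Nat.card dbl.ker := by
    have : Nat.card dbl.range * Nat.card δ.range = Nat.card dbl.range * Nat.card dbl.ker := by
      rw [k1, ← k2, mul_comm]
    exact Nat.eq_of_mul_eq_mul_left hpos this
  have htop : δ.range = ⊤ := by
    apply AddSubgroup.eq_top_of_le_card
    rw [k3]
    refine le_trans ?_ hcard
    rw [Nat.card_eq_fintype_card]
    decide
  have hmem : ((cl c0, cl c1) : ZMod 2 × ZMod 2) ∈ δ.range := by rw [htop]; trivial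
  obtain ⟨P, hP⟩ := hmem
  have hP2 : (cl (d0 α β P), cl (d1 α β P)) = (cl c0, cl c1) := hP
  have h4 : ∀ z : ZMod 2, z + z = 0 := by decide
  refine ⟨P, cl_zero.1 ?_, cl_zero.1 ?_⟩
  · rw [cl_mul h2 h0 (hn0 P), (Prod.mk.inj hP2).1, h4]
  · rw [cl_mul h2 h1 (hn1 P), (Prod.mk.inj hP2).2, h4]

include h2 hα hβ hαβ in
/-- the classes of the points -/
theorem cases_pt (P : Pt (crv α β) F) : (d0 α β P = 1 ∧ d1 α β P = 1) ∨
    ∃ x y : F, y ^ 2 = x * (x - α) * (x - β) ∧ d0 α β P = (if x = 0 then α * β else x) ∧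
      d1 α β P = (if x = α then α * (α - β) else x - α) := by
  have hE := isE α β F h2 hα hβ hαβ
  match P with
  | .zero => exact Or.inl ⟨rfl, rfl⟩
  | .some x y h => exact Or.inr ⟨x, y, hE.nonsingular.1 h, rfl, rfl⟩

/-- every class is the class of a point, explicitly -/
theorem exists_class' (h2 : (2 : F) ≠ 0) (hα : α ≠ 0) (hβ : β ≠ 0) (hαβ : α ≠ β) {c0 c1 : F}
    (h0 : c0 ≠ 0) (h1 : c1 ≠ 0) : (IsSquare c0 ∧ IsSquare c1) ∨
    (IsSquare (c0 * (α * β)) ∧ IsSquare (c1 * (-α))) ∨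
    (IsSquare (c0 * α) ∧ IsSquare (c1 * (α * (α - β)))) ∨
    (IsSquare (c0 * β) ∧ IsSquare (c1 * (β - α))) ∨
    ∃ x y : F, y ≠ 0 ∧ y ^ 2 = x * (x - α) * (x - β) ∧ IsSquare (c0 * x) ∧
      IsSquare (c1 * (x - α)) := by
  obtain ⟨P, hP0, hP1⟩ := exists_class h2 hα hβ hαβ h0 h1
  rcases cases_pt h2 hα hβ hαβ P with ⟨e0, e1⟩ | ⟨x, y, hxy, e0, e1⟩
  · rw [e0, mul_one] at hP0
    rw [e1, mul_one] at hP1
    exact Or.inl ⟨hP0, hP1⟩
  · rw [e0] at hP0
    rw [e1] at hP1
    by_cases hx0 : x = 0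
    · rw [if_pos hx0] at hP0
      rw [if_neg (by rw [hx0]; exact hα.symm), hx0, zero_sub] at hP1
      exact Or.inr (Or.inl ⟨hP0, hP1⟩)
    · rw [if_neg hx0] at hP0
      by_cases hx1 : x = α
      · rw [if_pos hx1] at hP1
        rw [hx1] at hP0
        exact Or.inr (Or.inr (Or.inl ⟨hP0, hP1⟩))
      · rw [if_neg hx1] at hP1
        by_cases hx2 : x = β
        · rw [hx2] at hP0 hP1
          exact Or.inr (Or.inr (Or.inr (Or.inl ⟨hP0, hP1⟩)))
        · refine Or.inr (Or.inr (Or.inr (Or.inr ⟨x, y, ?_, hxy, hP0, hP1⟩)))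
          rintro rfl
          rw [zero_pow two_ne_zero] at hxy
          exact mul_ne_zero (mul_ne_zero hx0 (sub_ne_zero.2 hx1)) (sub_ne_zero.2 hx2) hxy.symm

end

end Pool.Agent.Q53.HD
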