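import Pool.Agent.Q274.HD.Stm2
import Pool.Agent.Q53.HD.GptA

/-!
# Project HD (helper274), job GPT
-/

set_option autoImplicit false
set_option linter.unusedVariables false

namespace Pool.Agent.Q53.HD

open Pool.Agent.Q274.HD
open Pool.Agent.TH344.JG (LocJ)
open Pool.Agent.TH115.GD (crv d0 d1)
open Q182.JQ.ELL (H3 Pt Pt_one Pt_tor pt_LocJ H3_padic D)

/-- square classes of units -/
theorem sq_of_res {l : ℕ} [Fact l.Prime] (hl : l ≠ 2) {z : ℤ} (hz : ¬ (l : ℤ) ∣ z)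
    (h : IsSquare ((z : ℤ) : ZMod l)) : IsSquare ((z : ℤ) : ℚ_[l]) := by
  have hp : l.Prime := Fact.out
  obtain ⟨r, hr⟩ := h
  obtain ⟨m, rfl⟩ := ZMod.intCast_surjective r
  have h1 : (l : ℤ) ∣ m * m - z := by
    rw [← ZMod.intCast_zmod_eq_zero_iff_dvd]
    push_cast
    rw [hr, sub_self]
  have hm : ¬ (l : ℤ) ∣ m := by
    intro h2
    apply hz
    have h3 := dvd_sub (Dvd.dvd.mul_right h2 m) h1
    rwa [sub_sub_cancel] at h3
  have h2m : ¬ (l : ℤ) ∣ 2 * m := by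
    intro h2
    rcases (Nat.prime_iff_prime_int.1 hp).dvd_or_dvd h2 with h3 | h3
    · have h4 : l ∣ 2 := by exact_mod_cast h3
      exact hl ((Nat.prime_dvd_prime_iff_eq hp Nat.prime_two).1 h4)
    · exact hm h3
  let F : Polynomial ℤ_[l] := Polynomial.X ^ 2 - Polynomial.C ((z : ℤ) : ℤ_[l])
  have e1 : F.aeval ((m : ℤ) : ℤ_[l]) = ((m * m - z : ℤ) : ℤ_[l]) := by
    simp [F, pow_two]
  have e2 : F.derivative.aeval ((m : ℤ) : ℤ_[l]) = ((2 * m : ℤ) : ℤ_[l]) := by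
    simp only [F, Polynomial.derivative_sub, Polynomial.derivative_C, sub_zero,
      Polynomial.derivative_X_pow, map_mul, Polynomial.aeval_C, map_pow, Polynomial.aeval_X]
    push_cast
    simp
  obtain ⟨w, hw, -⟩ := hensels_lemma (p := l) (R := ℤ_[l]) (F := F) (a := ((m : ℤ) : ℤ_[l])) (by
    rw [e1, e2]
    have h3 : ‖((m * m - z : ℤ) : ℤ_[l])‖ < 1 := (PadicInt.norm_int_lt_one_iff_dvd _).2 h1
    have h4 : ‖((2 * m : ℤ) : ℤ_[l])‖ = 1 := by
      have h5 := PadicInt.norm_le_one ((2 * m : ℤ) : ℤ_[l])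
      have h6 : ¬ ‖((2 * m : ℤ) : ℤ_[l])‖ < 1 := fun h7 =>
        h2m ((PadicInt.norm_int_lt_one_iff_dvd _).1 h7)
      exact le_antisymm h5 (not_lt.1 h6)
    rw [h4, one_pow]
    exact h3)
  refine ⟨(w : ℚ_[l]), ?_⟩
  have e3 : F.aeval w = w ^ 2 - ((z : ℤ) : ℤ_[l]) := by simp [F]
  rw [e3] at hw
  have h7 : ((z : ℤ) : ℤ_[l]) = w * w := by rw [← pow_two]; exact (sub_eq_zero.1 hw).symm
  have h8 := congrArg (fun t : ℤ_[l] => (t : ℚ_[l])) h7
  simpa using h8

theorem cast_ne {l : ℕ} {z : ℤ} (hz : ¬ (l : ℤ) ∣ z) : ((z : ℤ) : ZMod l) ≠ 0 := by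
  rwa [Ne, ZMod.intCast_zmod_eq_zero_iff_dvd]

/-- the last step -/
theorem pt_of {l : ℕ} [Fact l.Prime] {b d : Fin 3 → ℤ} {δ : Fin 3 → ℤ} (hd : ∀ j, d j ≠ 0)
    (hdd : IsSquare ((d 0 * d 1 * d 2 : ℤ) : ℚ_[l]))
    (h : Pt (fun i => ((b i : ℤ) : ℚ_[l])) (fun i => ((δ i : ℤ) : ℚ_[l]))) (hδ : ∀ i, δ i ≠ 0)
    (h0 : IsSquare ((δ 0 * d 0 : ℤ) : ℚ_[l])) (h1 : IsSquare ((δ 1 * d 1 : ℤ) : ℚ_[l])) :
    LocJ ℚ_[l] b d := by
  have hδ' : ∀ i, ((δ i : ℤ) : ℚ_[l]) ≠ 0 := fun i => by exact_mod_cast hδ i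
  have hd' : ∀ i, ((d i : ℤ) : ℚ_[l]) ≠ 0 := fun i => by exact_mod_cast hd i
  have hpr : IsSquare ((δ 0 * δ 1 * δ 2 : ℤ) : ℚ_[l]) := by
    obtain ⟨x, y, hy, hxy, hs⟩ := h
    have e1 : ∏ i : Fin 3, (x - ((b i : ℤ) : ℚ_[l])) * ((δ i : ℤ) : ℚ_[l]) =
        y ^ 2 * ((δ 0 * δ 1 * δ 2 : ℤ) : ℚ_[l]) := by
      rw [Finset.prod_mul_distrib, ← hxy, Fin.prod_univ_three]
      push_cast
      ring
    have e2 : IsSquare (∏ i : Fin 3, (x - ((b i : ℤ) : ℚ_[l])) * ((δ i : ℤ) : ℚ_[l])) := by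
      rw [Fin.prod_univ_three]
      exact ((hs 0).mul (hs 1)).mul (hs 2)
    rw [e1] at e2
    obtain ⟨r, hr⟩ := e2
    refine ⟨r / y, ?_⟩
    field_simp
    rw [mul_comm]
    linear_combination hr
  have h2 : IsSquare ((δ 2 * d 2 : ℤ) : ℚ_[l]) := by
    obtain ⟨r, hr⟩ := hpr
    obtain ⟨s, hs⟩ := hdd
    obtain ⟨a, ha⟩ := h0
    obtain ⟨c, hc⟩ := h1
    have na : a ≠ 0 := by
      rintro rfl
      rw [mul_zero] at ha
      push_cast at ha
      exact mul_ne_zero (hδ' 0) (hd' 0) ha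
    have nc : c ≠ 0 := by
      rintro rfl
      rw [mul_zero] at hc
      push_cast at hc
      exact mul_ne_zero (hδ' 1) (hd' 1) hc
    refine ⟨r * s / (a * c), ?_⟩
    push_cast at hr hs ha hc ⊢
    rw [div_mul_div_comm, eq_div_iff (by positivity)]
    have e1 : ((δ 2 : ℤ) : ℚ_[l]) * ((d 2 : ℤ) : ℚ_[l]) * (a * c * (a * c)) =
        ((δ 2 : ℤ) : ℚ_[l]) * ((d 2 : ℤ) : ℚ_[l]) * ((a * a) * (c * c)) := by ring
    rw [e1, ← ha, ← hc]
    have e2 : r * s * (r * s) = (r * r) * (s * s) := by ring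
    rw [e2, ← hr, ← hs]
    ring
  refine pt_LocJ (h.congr hδ' fun i => ?_)
  fin_cases i
  · simpa using h0
  · simpa using h1
  · simpa using h2

theorem t_GPT : S_GPT := by
  intro l _ hl b d hb hd hdd
  have hp : l.Prime := Fact.out
  have hP := Nat.prime_iff_prime_int.1 hp
  unfold dd at hb
  have hb1 : ¬ (l : ℤ) ∣ b 0 - b 1 := fun h => hb ((h.mul_right _).mul_right _)
  have hb2 : ¬ (l : ℤ) ∣ b 0 - b 2 := fun h => hb ((h.mul_left _).mul_right _)
  have hb3 : ¬ (l : ℤ) ∣ b 1 - b 2 := fun h => hb (h.mul_left _)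
  have hne : ∀ i j : Fin 3, i ≠ j → ¬ (l : ℤ) ∣ b i - b j := by
    have hb1' : ¬ (l : ℤ) ∣ b 1 - b 0 := by rwa [← dvd_neg, neg_sub]
    have hb2' : ¬ (l : ℤ) ∣ b 2 - b 0 := by rwa [← dvd_neg, neg_sub]
    have hb3' : ¬ (l : ℤ) ∣ b 2 - b 1 := by rwa [← dvd_neg, neg_sub]
    intro i j hij
    fin_cases i <;> fin_cases j <;> first | exact absurd rfl hij | assumption
  have hbinj : Function.Injective fun i => ((b i : ℤ) : ℚ_[l]) := by
    intro i j hij
    by_contra h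
    apply hne i j h
    have h1 : b i = b j := by
      have h2 : ((b i : ℤ) : ℚ_[l]) = ((b j : ℤ) : ℚ_[l]) := hij
      exact_mod_cast h2
    rw [h1, sub_self]
    exact dvd_zero _
  have hd0 : ∀ j, d j ≠ 0 := by
    intro j h
    apply hd j
    rw [h]
    exact dvd_zero _
  have h2F : (2 : ZMod l) ≠ 0 := by
    have h1 : ¬ (l : ℤ) ∣ 2 := by
      intro h
      have h4 : l ∣ 2 := by exact_mod_cast h
      exact hl ((Nat.prime_dvd_prime_iff_eq hp Nat.prime_two).1 h4)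
    have := cast_ne h1
    simpa using this
  set α : ZMod l := ((b 1 - b 0 : ℤ) : ZMod l) with hα
  set β : ZMod l := ((b 2 - b 0 : ℤ) : ZMod l) with hβ
  have hα0 : α ≠ 0 := cast_ne (hne 1 0 (by decide))
  have hβ0 : β ≠ 0 := cast_ne (hne 2 0 (by decide))
  have hαβ : α ≠ β := by
    intro h
    have h1 : ((b 1 - b 2 : ℤ) : ZMod l) = α - β := by
      rw [hα, hβ]
      push_cast
      ring
    exact cast_ne (hne 1 2 (by decide)) (by rw [h1, h, sub_self])
  -- the conclusion from integers `δ`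
  have fin : ∀ δ : Fin 3 → ℤ, (∀ i, ¬ (l : ℤ) ∣ δ i) →
      IsSquare (((d 0 : ℤ) : ZMod l) * ((δ 0 : ℤ) : ZMod l)) →
      IsSquare (((d 1 : ℤ) : ZMod l) * ((δ 1 : ℤ) : ZMod l)) →
      Pt (fun i => ((b i : ℤ) : ℚ_[l])) (fun i => ((δ i : ℤ) : ℚ_[l])) → LocJ ℚ_[l] b d := by
    intro δ hδ e0 e1 h
    have hδ0 : ∀ i, δ i ≠ 0 := by
      intro j h
      apply hδ j
      rw [h]
      exact dvd_zero _
    have hmul : ∀ i, ¬ (l : ℤ) ∣ δ i * d i := fun i h => by
      rcases hP.dvd_or_dvd h with h | h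
      · exact hδ i h
      · exact hd i h
    refine pt_of hd0 hdd h hδ0 (sq_of_res hl (hmul 0) ?_) (sq_of_res hl (hmul 1) ?_)
    · push_cast
      rw [mul_comm]
      exact e0
    · push_cast
      rw [mul_comm]
      exact e1
  have tor : ∀ i j k : Fin 3, i ≠ j → i ≠ k → j ≠ k →
      IsSquare (((d 0 : ℤ) : ZMod l) * (((if (0 : Fin 3) = i then (b i - b j) * (b i - b k) else
      b i - b 0 : ℤ)) : ZMod l)) → IsSquare (((d 1 : ℤ) : ZMod l) * (((if (1 : Fin 3) = i then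
      (b i - b j) * (b i - b k) else b i - b 1 : ℤ)) : ZMod l)) →
      LocJ ℚ_[l] b d := by
    intro i j k hij hik hjk e0 e1
    have h1 := Pt_tor (H3_padic l) hbinj i
    have hD : D (fun i => ((b i : ℤ) : ℚ_[l])) i =
        (((b i - b j) * (b i - b k) : ℤ) : ℚ_[l]) := by
      unfold D
      have e : ∀ i j k : Fin 3, i ≠ j → i ≠ k → j ≠ k →
          (Finset.univ : Finset (Fin 3)).erase i = {j, k} := by decide
      rw [e i j k hij hik hjk, Finset.prod_pair hjk]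
      push_cast
      rfl
    refine fin (fun m => if m = i then (b i - b j) * (b i - b k) else b i - b m)
      (fun m => ?_) e0 e1 ?_
    · show ¬ (l : ℤ) ∣ if m = i then (b i - b j) * (b i - b k) else b i - b m
      split_ifs with h
      · intro h2
        rcases hP.dvd_or_dvd h2 with h3 | h3
        · exact hne i j hij h3
        · exact hne i k hik h3
      · exact hne i m fun h2 => h h2.symm
    · refine (congrArg (Pt fun l_1 => ((b l_1 : ℤ) : ℚ_[l])) ?_).mp h1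
      funext m
      by_cases hm : m = i
      · simp only [hm, if_true]
        exact hD
      · simp only [hm, if_false]
        push_cast
        rfl
  rcases exists_class' h2F hα0 hβ0 hαβ (cast_ne (hd 0)) (cast_ne (hd 1)) with
    ⟨h0, h1⟩ | ⟨h0, h1⟩ | ⟨h0, h1⟩ | ⟨h0, h1⟩ | ⟨x, y, hy, hxy, h0, h1⟩
  · refine fin (fun _ => 1) (fun _ h => ?_) (by simpa using h0) (by simpa using h1) ?_
    · exact hP.not_isUnit (isUnit_of_dvd_one h)
    · simpa using Pt_one (H3_padic l) (fun i => ((b i : ℤ) : ℚ_[l]))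
  · refine tor 0 1 2 (by decide) (by decide) (by decide) ?_ ?_
    · rw [if_pos rfl]
      have e : (((b 0 - b 1) * (b 0 - b 2) : ℤ) : ZMod l) = α * β := by
        rw [hα, hβ]
        push_cast
        ring
      rw [e]
      exact h0
    · rw [if_neg (by decide)]
      have e : ((b 0 - b 1 : ℤ) : ZMod l) = -α := by
        rw [hα]
        push_cast
        ring
      rw [e]
      exact h1
  · refine tor 1 0 2 (by decide) (by decide) (by decide) ?_ ?_
    · rw [if_neg (by decide)]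
      exact h0
    · rw [if_pos rfl]
      have e : (((b 1 - b 0) * (b 1 - b 2) : ℤ) : ZMod l) = α * (α - β) := by
        rw [hα, hβ]
        push_cast
        ring
      rw [e]
      exact h1
  · refine tor 2 0 1 (by decide) (by decide) (by decide) ?_ ?_
    · rw [if_neg (by decide)]
      exact h0
    · rw [if_neg (by decide)]
      have e : ((b 2 - b 1 : ℤ) : ZMod l) = β - α := by
        rw [hα, hβ]
        push_cast
        ring
      rw [e]
      exact h1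
  · obtain ⟨X, hX⟩ := ZMod.intCast_surjective (x + ((b 0 : ℤ) : ZMod l))
    have c0 : ((X - b 0 : ℤ) : ZMod l) = x := by
      push_cast
      rw [hX]
      ring
    have c1 : ((X - b 1 : ℤ) : ZMod l) = x - α := by
      push_cast
      rw [hX, hα]
      push_cast
      ring
    have c2 : ((X - b 2 : ℤ) : ZMod l) = x - β := by
      push_cast
      rw [hX, hβ]
      push_cast
      ring
    have hpne : x * (x - α) * (x - β) ≠ 0 := by
      rw [← hxy]
      exact pow_ne_zero 2 hy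
    have n0 : x ≠ 0 := left_ne_zero_of_mul (left_ne_zero_of_mul hpne)
    have n1 : x - α ≠ 0 := right_ne_zero_of_mul (left_ne_zero_of_mul hpne)
    have n2 : x - β ≠ 0 := right_ne_zero_of_mul hpne
    have hnd : ∀ i, ¬ (l : ℤ) ∣ X - b i := by
      have key : ∀ z : ℤ, ((z : ℤ) : ZMod l) ≠ 0 → ¬ (l : ℤ) ∣ z := fun z hz h =>
        hz ((ZMod.intCast_zmod_eq_zero_iff_dvd _ _).2 h)
      have k0 : ¬ (l : ℤ) ∣ X - b 0 := key _ (by rw [c0]; exact n0)
      have k1 : ¬ (l : ℤ) ∣ X - b 1 := key _ (by rw [c1]; exact n1)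
      have k2 : ¬ (l : ℤ) ∣ X - b 2 := key _ (by rw [c2]; exact n2)
      intro i
      fin_cases i
      · exact k0
      · exact k1
      · exact k2
    refine fin (fun i => X - b i) hnd (by rw [c0]; exact h0) (by rw [c1]; exact h1) ?_
    have hprod : IsSquare (((X - b 0) * (X - b 1) * (X - b 2) : ℤ) : ℚ_[l]) := by
      refine sq_of_res hl ?_ ?_
      · intro h
        rcases hP.dvd_or_dvd h with h | h
        · rcases hP.dvd_or_dvd h with h | h
          · exact hnd 0 h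
          · exact hnd 1 h
        · exact hnd 2 h
      · have e : (((X - b 0) * (X - b 1) * (X - b 2) : ℤ) : ZMod l) = y ^ 2 := by
          rw [hxy, Int.cast_mul, Int.cast_mul, c0, c1, c2]
        rw [e]
        exact ⟨y, pow_two y⟩
    obtain ⟨Y, hY⟩ := hprod
    refine ⟨(X : ℚ_[l]), Y, ?_, ?_, fun i => ?_⟩
    · rintro rfl
      rw [mul_zero] at hY
      have h3 : (X - b 0) * (X - b 1) * (X - b 2) = 0 := by exact_mod_cast hY
      have hX0 : ∀ i, X - b i ≠ 0 := fun i h => hnd i (by rw [h]; exact dvd_zero _)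
      exact mul_ne_zero (mul_ne_zero (hX0 0) (hX0 1)) (hX0 2) h3
    · rw [Fin.prod_univ_three, pow_two, ← hY]
      push_cast
      ring
    · refine ⟨(X : ℚ_[l]) - ((b i : ℤ) : ℚ_[l]), ?_⟩
      push_cast
      ring

end Pool.Agent.Q53.HD
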