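import Pool.Agent.Q53.HD.Sqr

/-!
# Project HD (helper274), job SPL
-/

set_option autoImplicit false
set_option linter.unusedVariables false

namespace Pool.Agent.Q53.HD

open NumberField IsDedekindDomain
open Pool.Agent.Q274.HD
open Pool.Agent.Q274.BKC (GK OB Dec Ine)
open Pool.Agent.TH344.JG (LocJ)
open Pool.Agent.Q299.HD
open scoped Matrix

theorem coc_toV {ρ : Rep} {w : Ideal ZB} {f : T2} {c : GQ → T2} (h : IsI ρ w f c) :
    Continuous (fun σ => toV (c σ)) ∧ ∀ σ τ, toV (c (σ * τ)) = toV (c σ) + act ρ σ (toV (c τ)) :=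
  ⟨h.cont, h.coc⟩

theorem t_SPL : S_SPL := by
  classical
  intro hEMB hFRO hFRB hTC hSPT hSPA b ρ w f L c x hL l _ hl2 hdl hdl2
  have hl : l.Prime := Fact.out
  obtain ⟨Q, hQ, hlQ⟩ := exists_Q hl
  have hQp : Q.IsPrime := hQ.isPrime
  have hemb := (hEMB l Q hQ hlQ).2
  obtain ⟨g, i, j, k, hS⟩ := hSPA hFRO b ρ w f L hL.inj hL.def_ hL.dat l hl hl2 hdl hdl2 Q hQ hlQ
  have hgu : IsUnit (g 0) ∨ IsUnit (g 1) := by
    obtain ⟨ψ, hψ⟩ := hS.quo 1 (fun x => by rw [one_smul])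
    exact hψ.1
  have h2Q : (2 : ZB) ∉ Q := two_notMem hl hl2 hQ.ne_top hlQ
  obtain ⟨y, hy⟩ := hFRB hFRO ρ hL.def_.cont l hl Q hQ hlQ hS.inv (fun σ => toV (c σ))
    hL.sel.cont hL.sel.coc (hL.sel.ine Q hQ h2Q)
  have hx0 : ∀ m, x m ≠ 0 := hL.cls.1
  obtain ⟨z, hz2⟩ := hS.half y fun σ hσ => ⟨c σ, (hy σ (ine_dec hσ)).symm⟩
  obtain ⟨t, ht⟩ := lf_surj hgu z
  have hty : lf g (toV t) = 2 * lf g y := by
    rw [lf_toV, ht, hz2]
  choose u hu using fun σ => hL.dat.two σ t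
  obtain ⟨x', hx', hloc⟩ := hTC b ρ L hL.inj hL.dat t u hu
  set y' : V2 := y - (1 / 2 : ℚ_[2]) • toV t with hy'
  have hgy' : lf g y' = 0 := by
    rw [hy', lf_sub, lf_smul, hty]
    ring
  have hcu : ∀ σ ∈ Dec Q, toV (c σ) - toV (u σ) = act ρ σ y' - y' := by
    intro σ hσ
    rw [show toV (c σ) = act ρ σ y - y from hy σ hσ, toV_half (hu σ), hy', act_sub]
    abel
  have hk : ∀ σ ∈ Dec Q, pr (L k) (c σ - u σ) = 0 := by
    intro σ hσ
    obtain ⟨ψ, hψ⟩ := hS.quo σ hσ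
    rw [← hS.red]
    have h2 : lf g (toV (c σ) - toV (u σ)) = 0 := by
      rw [hcu σ hσ, lf_sub, lf_act hψ, hgy']
      ring
    rw [lf_sub, lf_toV, lf_toV] at h2
    have h3 : g ⬝ᵥ (c σ - u σ) = 0 := by
      rw [dotProduct_sub]
      apply Subtype.ext
      rw [PadicInt.coe_sub]
      exact h2
    rw [h3]
    exact dvd_zero _
  have hin : ∀ σ ∈ Ine Q, c σ - u σ = 0 := by
    intro σ hσ
    have h2 := hcu σ (ine_dec hσ)
    rw [hS.ine σ hσ y' hgy', sub_self, sub_eq_zero] at h2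
    rw [toV_inj h2, sub_self]
  have hx'0 : ∀ m, x' m ≠ 0 := hx'.1
  have hz0 : ∀ m, x m * x' m ≠ 0 := fun m => mul_ne_zero (hx0 m) (hx'0 m)
  have hz : LocJ ℚ_[l] b fun m => x m * x' m := by
    refine hSPT l hl2 b hL.inj i j k hS.ij hS.ik hS.jk hS.dij hS.sij hS.dik hS.djk _ hz0 ?_ ?_
      (Or.inl ?_)
    · refine hemb _ fun y' hy' σ hσ => ?_
      rw [← fx_iff hy', cls_sub hL.cls hx']
      exact hk σ hσ
    · refine hemb _ fun y' hy' σ hσ => ?_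
      rw [← fx_iff hy', fx_mul (hz0 i) (hz0 j), cls_sub hL.cls hx', cls_sub hL.cls hx']
      exact zm_sum _ _ _ (sum_ijk hL.dat (c σ - u σ) hS.ij hS.ik hS.jk) (hk σ hσ)
    · by_contra hodd
      rw [Nat.not_even_iff_odd] at hodd
      obtain ⟨σ, hσ, h2⟩ := ramQ hl hQ hlQ (hz0 i) hodd
      obtain ⟨r, hr⟩ := exists_root (x i * x' i)
      have h3 : Fx σ (x i * x' i) := by
        rw [cls_sub hL.cls hx', hin σ hσ]
        simp [pr]
      have h4 := h3 r hr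
      rw [h2 r hr] at h4
      exact neg_ne (root_ne (hz0 i) hr) h4
  exact locJ_of hL.inj hx0 hx'0 hz (hloc ℚ_[l] (Q182.JQ.ELL.H3_padic l))

end Pool.Agent.Q53.HD
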