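import Pool.Agent.Q274.HD.Stm2
import Pool.Agent.Q53.HD.ObsA

/-!
# Project HD of helper274, job OBS: the obstruction
-/

set_option autoImplicit false
set_option linter.unusedVariables false

namespace Pool.Agent.Q53.HD

open Pool.Agent.Q154.BKC (norm_aut)

/-- Kummer theory for a character of order two of a closed subgroup -/
theorem kummer (H : Subgroup G2) (hH : IsClosed (H : Set G2)) (e : G2 → Om)
    (lc : IsLocallyConstant e) (h1 : ∀ h ∈ H, e h = 1 ∨ e h = -1)
    (hm : ∀ h ∈ H, ∀ h' ∈ H, e (h * h') = e h * e h') :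
    ∃ r : Om, r ≠ 0 ∧ ∀ h ∈ H, h r = e h * r := by
  have e1 : e 1 = 1 := by
    rcases h1 1 H.one_mem with h | h
    · exact h
    · have h2 := hm 1 H.one_mem 1 H.one_mem
      rw [one_mul, h] at h2
      norm_num at h2
  have einv : ∀ h ∈ H, e h⁻¹ = e h := by
    intro h hh
    have h2 := hm h hh h⁻¹ (H.inv_mem hh)
    rw [mul_inv_cancel, e1] at h2
    rcases h1 h hh with h3 | h3
    · rw [h3, one_mul] at h2
      rw [h3, ← h2]
    · rw [h3] at h2 ⊢
      linear_combination h2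
  let N : Subgroup G2 :=
    { carrier := {h | h ∈ H ∧ e h = 1}
      one_mem' := ⟨H.one_mem, e1⟩
      mul_mem' := by
        rintro a b ⟨ha, ha'⟩ ⟨hb, hb'⟩
        exact ⟨H.mul_mem ha hb, by rw [hm a ha b hb, ha', hb', one_mul]⟩
      inv_mem' := by
        rintro a ⟨ha, ha'⟩
        exact ⟨H.inv_mem ha, by rw [einv a ha, ha']⟩ }
  have hN : IsClosed (N : Set G2) := by
    have h2 : IsClosed {σ : G2 | e σ = 1} := lc.isClosed_fiber 1
    exact hH.inter h2
  by_cases hall : ∀ h ∈ H, e h = 1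
  · exact ⟨1, one_ne_zero, fun h hh => by rw [hall h hh, map_one, one_mul]⟩
  push Not at hall
  obtain ⟨h0, hh0, he0⟩ := hall
  have he0' : e h0 = -1 := (h1 h0 hh0).resolve_left he0
  have hn0 : h0 ∉ N := fun h => he0 h.2
  let N' : ClosedSubgroup G2 := ⟨N, hN⟩
  have h2 := InfiniteGalois.fixingSubgroup_fixedField N'
  have h3 : h0 ∉ (IntermediateField.fixedField N'.1).fixingSubgroup := by
    rw [h2]
    exact hn0
  rw [IntermediateField.mem_fixingSubgroup_iff] at h3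
  push Not at h3
  obtain ⟨x, hx, hx0⟩ := h3
  have hfx : ∀ n ∈ N, n x = x := fun n hn => hx ⟨n, hn⟩
  have hsq : h0 * h0 ∈ N := ⟨H.mul_mem hh0 hh0, by rw [hm h0 hh0 h0 hh0, he0']; ring⟩
  have h00 : h0 (h0 x) = x := hfx _ hsq
  have hconj : ∀ n ∈ N, n (h0 x) = h0 x := by
    intro n hn
    have h4 : h0⁻¹ * (n * h0) ∈ N := by
      refine ⟨H.mul_mem (H.inv_mem hh0) (H.mul_mem hn.1 hh0), ?_⟩
      rw [hm _ (H.inv_mem hh0) _ (H.mul_mem hn.1 hh0), hm _ hn.1 _ hh0, einv _ hh0, hn.2, he0']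
      ring
    have h5 := hfx _ h4
    have h6 := congrArg h0 h5
    rw [← AlgEquiv.mul_apply] at h6
    rw [mul_inv_cancel_left] at h6
    exact h6
  refine ⟨x - h0 x, sub_ne_zero.2 (Ne.symm hx0), ?_⟩
  intro h hh
  rcases h1 h hh with h4 | h4
  · have h5 : h ∈ N := ⟨hh, h4⟩
    rw [map_sub, hfx h h5, hconj h h5, h4, one_mul]
  · have h5 : h0⁻¹ * h ∈ N := by
      refine ⟨H.mul_mem (H.inv_mem hh0) hh, ?_⟩
      rw [hm _ (H.inv_mem hh0) _ hh, einv _ hh0, he0', h4]
      ring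
    have h6 : ∀ z, (h0⁻¹ * h) z = z → h z = h0 z := by
      intro z hz
      have h7 := congrArg h0 hz
      rwa [← AlgEquiv.mul_apply, mul_inv_cancel_left] at h7
    rw [map_sub, h6 _ (hfx _ h5), h6 _ (hconj _ h5), h00, h4]
    ring

/-- powers of a root of `-1` -/
theorem im_add {x : Om} (hx : x ^ 2 = -1) (a b : ZMod 4) :
    x ^ (a + b).val = x ^ a.val * x ^ b.val := by
  have h4 : x ^ 4 = 1 := by
    have : x ^ 4 = (x ^ 2) ^ 2 := by ring
    rw [this, hx]
    ring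
  rw [ZMod.val_add, ← pow_add]
  exact (pow_eq_pow_mod _ h4).symm

theorem im_neg {x : Om} (hx : x ^ 2 = -1) (a : ZMod 4) : x ^ (-a).val = (-x) ^ a.val := by
  have h0 : ∀ a : ZMod 4, a = 0 ∨ a = 1 ∨ a = 2 ∨ a = 3 := by decide
  have h3 : x ^ 3 = - x := by
    have : x ^ 3 = x ^ 2 * x := by ring
    rw [this, hx]
    ring
  rcases h0 a with h | h | h | h <;> subst h
  · rw [show (-0 : ZMod 4).val = 0 from rfl, show (0 : ZMod 4).val = 0 from rfl]
    simp
  · rw [show (-1 : ZMod 4).val = 3 from rfl, show (1 : ZMod 4).val = 1 from rfl, h3]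
    simp
  · rw [show (-2 : ZMod 4).val = 2 from rfl, show (2 : ZMod 4).val = 2 from rfl]
    ring
  · rw [show (-3 : ZMod 4).val = 1 from rfl, show (3 : ZMod 4).val = 3 from rfl]
    linear_combination h3

theorem im_sq {x : Om} (hx : x ^ 2 = -1) (a : ZMod 4) : (x ^ a.val) ^ 2 = (-1) ^ a.val := by
  rw [← pow_mul, mul_comm, pow_mul, hx]

theorem sgn_eq {v z : Om} (hv : v ≠ 0) (h : z ^ 2 = v ^ 2) (a : ZMod 4)
    (hz : z = v ↔ a.val % 2 = 0) : z = (-1) ^ a.val * v := by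
  by_cases ha : a.val % 2 = 0
  · rw [hz.2 ha, (Nat.even_iff.2 ha).neg_one_pow, one_mul]
  · have h1 : z ≠ v := fun h => ha (hz.1 h)
    have h2 : Odd a.val := Nat.odd_iff.2 (by omega)
    rw [(sq_eq_sq_iff_eq_or_eq_neg.1 h).resolve_left h1, h2.neg_one_pow]
    ring

/-- the norm of an element of the quadratic field -/
theorem norm_quad {r5 : Om} (hr5 : r5 ^ 2 = 5) {s : G2} (hs : s r5 = -r5) {x : Om} (hx : x ≠ 0)
    (hfx : ∀ h : G2, h r5 = r5 → h x = x) : ∃ n : ℤ, ‖x‖ = 2 ^ n := by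
  have h50 : r5 ≠ 0 := by
    intro h
    rw [h] at hr5
    norm_num at hr5
  have hpm : ∀ τ : G2, τ r5 = r5 ∨ τ r5 = -r5 := by
    intro τ
    have h1 : (τ r5) ^ 2 = r5 ^ 2 := by
      rw [← map_pow, hr5]
      exact map_ofNat τ 5
    exact sq_eq_sq_iff_eq_or_eq_neg.1 h1
  have inv5 : s⁻¹ r5 = -r5 := by
    have h1 := congrArg (s⁻¹ : G2) hs
    rw [← AlgEquiv.mul_apply, inv_mul_cancel, map_neg] at h1
    have h2 : r5 = -(s⁻¹ r5) := h1
    rw [h2, neg_neg]
    rw [← h2]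
  have hsx : ∀ h : G2, h r5 = r5 → h (s x) = s x := by
    intro h hh
    have h1 : (s⁻¹ * (h * s)) r5 = r5 := by
      rw [AlgEquiv.mul_apply, AlgEquiv.mul_apply, hs, map_neg, hh, map_neg, inv5, neg_neg]
    have h2 := congrArg s (hfx _ h1)
    rwa [← AlgEquiv.mul_apply, mul_inv_cancel_left] at h2
  have hssx : s (s x) = x := by
    have h1 : (s * s) r5 = r5 := by
      rw [AlgEquiv.mul_apply, hs, map_neg, hs, neg_neg]
    exact hfx _ h1
  have hcos : ∀ τ : G2, τ r5 = -r5 → (s⁻¹ * τ) r5 = r5 := by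
    intro τ hτ
    rw [AlgEquiv.mul_apply, hτ, map_neg, inv5, neg_neg]
  have hcx : ∀ τ : G2, τ r5 = -r5 → τ x = s x := by
    intro τ hτ
    have h2 := congrArg s (hfx _ (hcos τ hτ))
    rwa [← AlgEquiv.mul_apply, mul_inv_cancel_left] at h2
  have hcsx : ∀ τ : G2, τ r5 = -r5 → τ (s x) = x := by
    intro τ hτ
    have h2 := congrArg s (hsx _ (hcos τ hτ))
    rw [← AlgEquiv.mul_apply, mul_inv_cancel_left, hssx] at h2
    exact h2
  obtain ⟨a, ha⟩ := fix_Q (x := x + s x) (by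
    intro τ
    rcases hpm τ with h | h
    · rw [map_add, hfx τ h, hsx τ h]
    · rw [map_add, hcx τ h, hcsx τ h, add_comm])
  obtain ⟨b, hb⟩ := fix_Q (x := (x - s x) * r5) (by
    intro τ
    rcases hpm τ with h | h
    · rw [map_mul, map_sub, hfx τ h, hsx τ h, h]
    · rw [map_mul, map_sub, hcx τ h, hcsx τ h, h]
      ring)
  have hprod : x * s x = algebraMap ℚ_[2] Om ((a / 2) ^ 2 - 5 * (b / 10) ^ 2) := by
    rw [map_sub, map_mul, map_pow, map_pow, map_div₀, map_div₀, ha, hb]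
    rw [map_ofNat, map_ofNat, map_ofNat]
    rw [div_pow, div_pow, mul_pow, hr5]
    ring
  have hne : x * s x ≠ 0 := mul_ne_zero hx (by
    intro h
    apply hx
    rw [← hssx, h, map_zero])
  have hnz : ¬ (a / 2 = 0 ∧ b / 10 = 0) := by
    rintro ⟨h1, h2⟩
    rw [h1, h2] at hprod
    apply hne
    rw [hprod]
    simp
  obtain ⟨n, hn⟩ := norm_form hnz
  refine ⟨n, ?_⟩
  have h1 : ‖x‖ ^ 2 = ((2 : ℝ) ^ n) ^ 2 := by
    rw [← hn, ← norm_ext, ← hprod, norm_mul, norm_aut, pow_two]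
  exact (sq_eq_sq₀ (norm_nonneg _) (by positivity)).1 h1

/-- HD-16 (OBS). -/
theorem t_OBS : Pool.Agent.Q274.HD.S_OBS := by
  intro u A hu hA hmul hcls
  obtain ⟨i0, hi⟩ : ∃ y : Om, y ^ 2 = -1 := IsAlgClosed.exists_pow_nat_eq (-1 : Om) (by norm_num)
  obtain ⟨r5, hr5⟩ : ∃ y : Om, y ^ 2 = 5 := IsAlgClosed.exists_pow_nat_eq (5 : Om) (by norm_num)
  obtain ⟨v, hv⟩ : ∃ y : Om, y ^ 2 = algebraMap ℚ_[2] Om u :=
    IsAlgClosed.exists_pow_nat_eq _ (by norm_num)
  obtain ⟨w, hw⟩ : ∃ y : Om, y ^ 2 = v := IsAlgClosed.exists_pow_nat_eq _ (by norm_num)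
  have hu' : algebraMap ℚ_[2] Om u ≠ 0 := by
    rw [Ne, map_eq_zero]
    exact hu
  have hv0 : v ≠ 0 := by
    intro h
    rw [h] at hv
    apply hu'
    rw [← hv]
    ring
  have hw0 : w ≠ 0 := by
    intro h
    rw [h] at hw
    apply hv0
    rw [← hw]
    ring
  have h50 : r5 ≠ 0 := by
    intro h
    rw [h] at hr5
    norm_num at hr5
  have hi0 : i0 ≠ 0 := by
    intro h
    rw [h] at hi
    norm_num at hi
  have h2ne : ∀ z : Om, z ≠ 0 → -z ≠ z := by
    intro z hz h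
    apply hz
    have h3 : (2 : Om) * z = 0 := by linear_combination -h
    exact (mul_eq_zero.1 h3).resolve_left two_ne_zero
  have hne : ∀ (σ : G2) (z : Om), z ≠ 0 → σ z ≠ 0 := fun σ z hz => by
    rw [Ne, map_eq_zero_iff σ σ.injective]
    exact hz
  have pm5 : ∀ τ : G2, τ r5 = r5 ∨ τ r5 = -r5 := by
    intro τ
    have h1 : (τ r5) ^ 2 = r5 ^ 2 := by
      rw [← map_pow, hr5]
      exact map_ofNat τ 5
    exact sq_eq_sq_iff_eq_or_eq_neg.1 h1
  have pmi : ∀ τ : G2, τ i0 = i0 ∨ τ i0 = -i0 := by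
    intro τ
    have h1 : (τ i0) ^ 2 = i0 ^ 2 := by
      rw [← map_pow, hi, map_neg, map_one]
    exact sq_eq_sq_iff_eq_or_eq_neg.1 h1
  have si2 : ∀ τ : G2, (τ i0) ^ 2 = -1 := fun τ => by rw [← map_pow, hi, map_neg, map_one]
  -- the function `v`
  have hV : ∀ σ : G2, σ v = (-1) ^ (A σ).val * v := by
    intro σ
    refine sgn_eq hv0 ?_ (A σ) (hcls σ v hv)
    rw [← map_pow, hv, AlgEquiv.commutes]
  -- the character of the roots of `-5`
  have hcond : ∀ σ : G2, (∀ y : Om, y ^ 2 = -5 → σ y = y) ↔ σ (i0 * r5) = i0 * r5 := by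
    intro σ
    have h1 : (i0 * r5) ^ 2 = -5 := by
      rw [mul_pow, hi, hr5]
      ring
    constructor
    · intro h
      exact h _ h1
    · intro h y hy
      rcases sq_eq_sq_iff_eq_or_eq_neg.1 (hy.trans h1.symm) with h2 | h2
      · rw [h2, h]
      · rw [h2, map_neg, h]
  have hX1 : ∀ σ τ : G2, σ r5 = r5 → i0 ^ (A (σ * τ)).val = i0 ^ (A σ).val * σ (i0 ^ (A τ).val) := by
    intro σ τ h5
    rw [hmul, im_add hi, map_pow]
    congr 1
    rcases pmi σ with h | h
    · rw [if_pos ((hcond σ).2 (by rw [map_mul, h5, h])), one_mul, h]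
    · rw [if_neg, neg_mul, one_mul, im_neg hi, h]
      intro h3
      have h4 := (hcond σ).1 h3
      rw [map_mul, h5, h] at h4
      exact h2ne i0 hi0 (mul_right_cancel₀ h50 h4)
  have hX2 : ∀ σ τ : G2, σ r5 = -r5 → i0 ^ (A (σ * τ)).val =
      i0 ^ (A σ).val * ((-1) ^ (A τ).val * σ (i0 ^ (A τ).val)) := by
    intro σ τ h5
    rw [hmul, im_add hi, map_pow, ← neg_pow]
    congr 1
    rcases pmi σ with h | h
    · rw [if_neg, neg_mul, one_mul, im_neg hi, h]
      intro h3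
      have h4 := (hcond σ).1 h3
      rw [map_mul, h5, h] at h4
      have h6 : -(i0 * r5) = i0 * r5 := by linear_combination h4
      exact h2ne _ (mul_ne_zero hi0 h50) h6
    · rw [if_pos ((hcond σ).2 (by rw [map_mul, h5, h]; ring)), one_mul, h, neg_neg]
  -- the function `e`
  let e : G2 → Om := fun σ => i0 ^ (A σ).val * w / σ w
  have he : ∀ σ, e σ = i0 ^ (A σ).val * w / σ w := fun σ => rfl
  have hB : ∀ σ, i0 ^ (A σ).val = e σ * σ w / w := by
    intro σ
    rw [he]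
    field_simp [hne σ w hw0, hw0]
  have hpm : ∀ σ : G2, e σ = 1 ∨ e σ = -1 := by
    intro σ
    have h1 : e σ ^ 2 = 1 ^ 2 := by
      rw [he, div_pow, mul_pow, im_sq hi, ← map_pow, hw, hV]
      rw [one_pow]
      exact div_self (mul_ne_zero (pow_ne_zero _ (by norm_num)) hv0)
    exact sq_eq_sq_iff_eq_or_eq_neg.1 h1
  have hfe : ∀ σ τ : G2, σ (e τ) = e τ := by
    intro σ τ
    rcases hpm τ with h | h
    · rw [h, map_one]
    · rw [h, map_neg, map_one]
  have hee : ∀ τ : G2, e τ * e τ = 1 := by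
    intro τ
    rcases hpm τ with h | h
    · rw [h, one_mul]
    · rw [h]
      ring
  have hE1 : ∀ σ τ : G2, σ r5 = r5 → e (σ * τ) = e σ * e τ := by
    intro σ τ h5
    have h1 := hne σ w hw0
    have h2 := hne σ _ (hne τ w hw0)
    rw [he (σ * τ), hX1 σ τ h5, hB τ, map_div₀, map_mul, hfe, hB σ, AlgEquiv.mul_apply]
    field_simp
  have hE2 : ∀ σ τ : G2, σ r5 = -r5 → e (σ * τ) = (-1) ^ (A τ).val * (e σ * e τ) := by
    intro σ τ h5
    have h1 := hne σ w hw0
    have h2 := hne σ _ (hne τ w hw0)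
    rw [he (σ * τ), hX2 σ τ h5, hB τ, map_div₀, map_mul, hfe, hB σ, AlgEquiv.mul_apply]
    field_simp
  have lce : IsLocallyConstant e :=
    IsLocallyConstant.comp₂ hA (eval_lc w) fun a z => i0 ^ a.val * w / z
  -- the subgroup
  let H : Subgroup G2 :=
    { carrier := {σ | σ r5 = r5}
      one_mem' := rfl
      mul_mem' := by
        intro a b ha hb
        change a (b r5) = r5
        rw [show b r5 = r5 from hb, show a r5 = r5 from ha]
      inv_mem' := by
        intro a ha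
        have h1 := congrArg (a⁻¹ : G2) (show a r5 = r5 from ha)
        rw [← AlgEquiv.mul_apply, inv_mul_cancel] at h1
        exact h1.symm }
  have hHc : IsClosed (H : Set G2) := (eval_lc r5).isClosed_fiber r5
  obtain ⟨r, hr0, hr⟩ := kummer H hHc e lce (fun h _ => hpm h) (fun h hh h' _ => hE1 h h' hh)
  -- an element which moves the root of five
  obtain ⟨s, hs⟩ : ∃ s : G2, s r5 = -r5 := by
    by_contra hcon
    push Not at hcon
    obtain ⟨t, ht⟩ := fix_Q (x := r5) fun σ => (pm5 σ).resolve_right (hcon σ)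
    apply five_ns t
    apply (algebraMap ℚ_[2] Om).injective
    rw [map_pow, ht, hr5, map_ofNat]
  have inv5 : s⁻¹ r5 = -r5 := by
    have h1 := congrArg (s⁻¹ : G2) hs
    rw [← AlgEquiv.mul_apply, inv_mul_cancel, map_neg] at h1
    have h2 : r5 = -(s⁻¹ r5) := h1
    linear_combination h2
  -- the conjugate
  have key : ∀ h : G2, h r5 = r5 → h (s r) = e h * ((-1) ^ (A h).val) * s r := by
    intro h hh
    have h1 : (s⁻¹ * (h * s)) r5 = r5 := by
      rw [AlgEquiv.mul_apply, AlgEquiv.mul_apply, hs, map_neg, hh, map_neg, inv5, neg_neg]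
    set h' := s⁻¹ * (h * s) with hh'
    have h2 : s * h' = h * s := by rw [hh', mul_inv_cancel_left]
    have h3 : h (s r) = s (h' r) := by
      have h4 := congrArg (fun g : G2 => g r) h2
      exact h4.symm
    have h4 : e (s * h') = e (h * s) := by rw [h2]
    rw [hE2 s h' hs, hE1 h s hh] at h4
    -- the values on `v`
    have h5 : (-1 : Om) ^ (A h').val = (-1) ^ (A h).val := by
      have h6 : s (h' v) = h (s v) := congrArg (fun g : G2 => g v) h2
      rw [hV h', hV s, map_mul, map_mul, map_pow, map_pow, map_neg, map_neg, map_one, map_one, hV s,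
        hV h] at h6
      have h7 : ((-1 : Om) ^ (A s).val * v) ≠ 0 := mul_ne_zero (pow_ne_zero _ (by norm_num)) hv0
      apply mul_right_cancel₀ h7
      rw [h6]
      ring
    have h6 : e h' = e h * (-1) ^ (A h).val := by
      rw [h5] at h4
      have h7 : ((-1 : Om) ^ (A h).val) ^ 2 = 1 := by
        rw [← pow_mul, mul_comm, pow_mul]
        norm_num
      have h8 := hee s
      calc e h' = (e s * e s) * (((-1 : Om) ^ (A h).val) ^ 2) * e h' := by rw [h8, h7]; ring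
        _ = e s * (-1) ^ (A h).val * ((-1) ^ (A h).val * (e s * e h')) := by ring
        _ = e s * (-1) ^ (A h).val * (e h * e s) := by rw [h4]
        _ = (e s * e s) * (e h * (-1) ^ (A h).val) := by ring
        _ = _ := by rw [h8, one_mul]
    rw [h3, hr h' h1, map_mul, hfe, h6]
  have hsr0 := hne s r hr0
  obtain ⟨m, hm⟩ := norm_quad hr5 hs (x := r * s r * v) (mul_ne_zero (mul_ne_zero hr0 hsr0) hv0) (by
    intro h hh
    have h7 : ((-1 : Om) ^ (A h).val) ^ 2 = 1 := by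
      rw [← pow_mul, mul_comm, pow_mul]
      norm_num
    rw [map_mul, map_mul, hr h hh, key h hh, hV h]
    have h8 := hee h
    calc e h * r * (e h * (-1) ^ (A h).val * s r) * ((-1) ^ (A h).val * v)
        = (e h * e h) * (((-1 : Om) ^ (A h).val) ^ 2) * (r * s r * v) := by ring
      _ = _ := by rw [h8, h7]; ring)
  obtain ⟨n, hn⟩ := norm_quad hr5 hs (x := r ^ 2) (pow_ne_zero _ hr0) (by
    intro h hh
    rw [map_pow, hr h hh, mul_pow, pow_two (e h), hee, one_mul])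
  have h1 : ‖u‖ * ((2 : ℝ) ^ n) ^ 2 = ((2 : ℝ) ^ m) ^ 2 := by
    rw [← hm, ← hn, ← norm_pow (r * s r * v), ← norm_ext, ← hv]
    have h2 : ‖(r * s r * v) ^ 2‖ = ‖r ^ 2‖ * ‖s r‖ ^ 2 * ‖v ^ 2‖ := by
      rw [mul_pow, mul_pow, norm_mul, norm_mul, norm_pow (s r)]
    rw [h2, norm_aut, norm_pow r]
    ring
  have h2 : ‖u‖ = (2 : ℝ) ^ (-u.valuation) := by
    simpa using Padic.norm_eq_zpow_neg_valuation hu
  rw [h2, ← zpow_natCast, ← zpow_natCast, ← zpow_mul, ← zpow_mul, ← zpow_add₀ (by norm_num)] at h1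
  have h3 := zpow_right_injective₀ (by norm_num : (0 : ℝ) < 2) (by norm_num : (2 : ℝ) ≠ 1) h1
  push_cast at h3
  exact ⟨n - m, by omega⟩

end Pool.Agent.Q53.HD
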