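import Pool.Agent.Q299.HD.CNT
import Pool.Agent.Q95.BKC.RAM

/-!
# Project HD (helper274): inertia elements over `ℚ`, the determinant
-/

set_option autoImplicit false
set_option linter.unusedVariables false

namespace Pool.Agent.Q53.HD

open NumberField IsDedekindDomain
open Pool.Agent.Q274.HD
open Pool.Agent.Q274.BKC (GK OB Dec Ine)
open Pool.Agent.Q299.HD

theorem two_notMem {l : ℕ} (hl : l.Prime) (h2 : l ≠ 2) {Q : Ideal ZB} (hQ : Q ≠ ⊤)
    (hlQ : (l : ZB) ∈ Q) : (2 : ZB) ∉ Q := by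
  intro h
  apply hQ
  rw [Ideal.eq_top_iff_one]
  obtain ⟨k, hk⟩ := hl.odd_of_ne_two h2
  have h1 : (1 : ZB) = (l : ZB) - 2 * (k : ZB) := by
    rw [hk]
    push_cast
    ring
  rw [h1]
  exact Q.sub_mem hlQ (Q.mul_mem_right _ h)

theorem int_notMem {l : ℕ} (hl : l.Prime) {Q : Ideal ZB} (hQ : Q ≠ ⊤) (hlQ : (l : ZB) ∈ Q) {z : ℤ}
    (hz : ¬ (l : ℤ) ∣ z) : ((z : ℤ) : ZB) ∉ Q := by
  intro h
  apply hQ
  rw [Ideal.eq_top_iff_one]
  have hc : IsCoprime (l : ℤ) z :=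
    (Prime.coprime_iff_not_dvd (Nat.prime_iff_prime_int.1 hl)).2 hz
  obtain ⟨a, b, hab⟩ := hc
  have h1 : (1 : ZB) = (a : ZB) * (l : ZB) + (b : ZB) * (z : ZB) := by
    have := congrArg (fun t : ℤ => (t : ZB)) hab
    push_cast at this
    exact this.symm
  rw [h1]
  exact Q.add_mem (Q.mul_mem_left _ hlQ) (Q.mul_mem_left _ h)

/-- square roots of integers as elements of `ZB` -/
theorem exists_int {y : QB} {z : ℤ} (hy : y ^ 2 = ((z : ℤ) : QB)) :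
    ∃ x : ZB, (x : QB) = y ∧ x ^ 2 = ((z : ℤ) : ZB) := by
  have h1 : IsIntegral ℤ y := by
    refine IsIntegral.of_pow (n := 2) two_pos ?_
    rw [hy]
    exact isIntegral_algebraMap (R := ℤ) (A := QB) (x := z)
  refine ⟨⟨y, h1⟩, rfl, ?_⟩
  apply RingOfIntegers.ext
  push_cast
  exact hy

/-- inertia elements fix the square roots of units -/
theorem ine_fix {l : ℕ} (hl : l.Prime) (h2 : l ≠ 2) {Q : Ideal ZB} (hQ : Q.IsPrime)
    (hlQ : (l : ZB) ∈ Q) {z : ℤ} (hz : ¬ (l : ℤ) ∣ z) {σ : GQ} (hσ : σ ∈ Ine Q) {y : QB}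
    (hy : y ^ 2 = ((z : ℤ) : QB)) : σ y = y := by
  rcases sq_or σ hy with h | h
  · exact h
  · exfalso
    obtain ⟨x, hx, hx2⟩ := exists_int hy
    have h1 := hσ x
    have h3 : σ • x - x = -(2 * x) := by
      apply RingOfIntegers.ext
      have h4 : ((σ • x - x : ZB) : QB) = σ (x : QB) - (x : QB) := rfl
      have h5 : ((-(2 * x) : ZB) : QB) = -(2 * (x : QB)) := by
        push_cast
        rfl
      rw [h4, h5, hx, h]
      ring
    rw [h3, Ideal.neg_mem_iff] at h1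
    rcases hQ.mem_or_mem h1 with h4 | h4
    · exact two_notMem hl h2 hQ.ne_top hlQ h4
    · apply int_notMem hl hQ.ne_top hlQ hz
      rw [← hx2, pow_two]
      exact Q.mul_mem_left _ h4

/-! ### roots of unity -/

theorem root_near {l : ℕ} (hl : l.Prime) (h2 : l ≠ 2) {Q : Ideal ZB} (hQ : Q.IsPrime)
    (hlQ : (l : ZB) ∈ Q) (n : ℕ) : ∀ η : ZB, η ^ 2 ^ n = 1 → η - 1 ∈ Q → η = 1 := by
  induction n with
  | zero =>
    intro η h _
    simpa using h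
  | succ n ih =>
    intro η h h1
    have h3 : η ^ 2 = 1 := by
      apply ih
      · rw [← pow_mul, ← pow_succ']
        exact h
      · have : η ^ 2 - 1 = (η + 1) * (η - 1) := by ring
        rw [this]
        exact Q.mul_mem_left _ h1
    rcases sq_eq_one_iff.1 h3 with h4 | h4
    · exact h4
    · exfalso
      rw [h4] at h1
      have h5 : (-1 - 1 : ZB) = -2 := by ring
      rw [h5, Ideal.neg_mem_iff] at h1
      exact two_notMem hl h2 hQ.ne_top hlQ h1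

theorem pow_eq_of {l : ℕ} (hl : l.Prime) (h2 : l ≠ 2) {Q : Ideal ZB} (hQ : Q.IsPrime)
    (hlQ : (l : ZB) ∈ Q) {n : ℕ} {z : ZB} (hz : z ^ 2 ^ n = 1) {a m : ℕ}
    (h : z ^ m - z ^ a ∈ Q) : z ^ m = z ^ a := by
  have hN : 2 ^ n - 1 + 1 = 2 ^ n := Nat.sub_add_cancel Nat.one_le_two_pow
  have e1 : z ^ ((2 ^ n - 1) * a) * z ^ a = 1 := by
    rw [← pow_add]
    have : (2 ^ n - 1) * a + a = 2 ^ n * a := by
      calc (2 ^ n - 1) * a + a = (2 ^ n - 1 + 1) * a := by ring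
        _ = _ := by rw [hN]
    rw [this, pow_mul, hz, one_pow]
  have e2 : z ^ m * z ^ ((2 ^ n - 1) * a) = 1 := by
    apply root_near hl h2 hQ hlQ n
    · rw [mul_pow, ← pow_mul, ← pow_mul, mul_comm m, mul_comm ((2 ^ n - 1) * a), pow_mul,
        pow_mul, hz, one_pow, one_pow, one_mul]
    · have e3 : z ^ m * z ^ ((2 ^ n - 1) * a) - 1 = z ^ ((2 ^ n - 1) * a) * (z ^ m - z ^ a) := by
        linear_combination e1
      rw [e3]
      exact Q.mul_mem_left _ h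
  calc z ^ m = z ^ m * (z ^ ((2 ^ n - 1) * a) * z ^ a) := by rw [e1, mul_one]
    _ = z ^ m * z ^ ((2 ^ n - 1) * a) * z ^ a := by ring
    _ = _ := by rw [e2, one_mul]

theorem zero_of_dvd {z : ℤ_[2]} (h : ∀ n : ℕ, (2 : ℤ_[2]) ^ n ∣ z) : z = 0 := by
  rw [← norm_le_zero_iff]
  have h1 : ∀ n : ℕ, ‖z‖ ≤ (1 / 2 : ℝ) ^ n := by
    intro n
    obtain ⟨w, hw⟩ := h n
    have h3 : ‖(2 : ℤ_[2])‖ = 1 / 2 := by
      have := PadicInt.norm_p (p := 2)
      push_cast at this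
      rw [this]
      norm_num
    rw [hw, norm_mul, norm_pow, h3]
    exact mul_le_of_le_one_right (by positivity) (PadicInt.norm_le_one w)
  exact ge_of_tendsto' (tendsto_pow_atTop_nhds_zero_of_lt_one (by norm_num) (by norm_num)) h1

/-- the determinant of an element which is `x ↦ x ^ a` modulo `Q` -/
theorem det_eq {ρ : Rep} (hC : Cyc ρ) {l : ℕ} (hl : l.Prime) (h2 : l ≠ 2) {Q : Ideal ZB}
    (hQ : Q.IsPrime) (hlQ : (l : ZB) ∈ Q) {σ : GQ} {a : ℕ} (hσ : ∀ x : ZB, σ • x - x ^ a ∈ Q) :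
    (ρ σ).det = a := by
  rw [← sub_eq_zero]
  refine zero_of_dvd fun n => ?_
  set m := (ρ σ).det.appr n with hm
  have h1 : (2 ^ n : ℤ_[2]) ∣ (ρ σ).det - m := by
    have := PadicInt.appr_spec n (ρ σ).det
    rw [Ideal.mem_span_singleton] at this
    exact_mod_cast this
  obtain ⟨ζ, hζ⟩ := HasEnoughRootsOfUnity.exists_primitiveRoot QB (2 ^ n)
  have h3 := hC σ n m ζ hζ.pow_eq_one h1
  have hint : IsIntegral ℤ ζ := hζ.isIntegral (by positivity)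
  obtain ⟨z, hz⟩ : ∃ z : ZB, (z : QB) = ζ := ⟨⟨ζ, hint⟩, rfl⟩
  have h4 : σ • z = z ^ m := by
    apply RingOfIntegers.ext
    have h5 : ((σ • z : ZB) : QB) = σ (z : QB) := rfl
    rw [h5, hz, h3, ← hz]
    push_cast
    rfl
  have h5 : z ^ 2 ^ n = 1 := by
    apply RingOfIntegers.ext
    have h5 : ((z ^ 2 ^ n : ZB) : QB) = (z : QB) ^ 2 ^ n := rfl
    rw [h5, hz, hζ.pow_eq_one]
    rfl
  have h6 : z ^ m = z ^ a := by
    apply pow_eq_of hl h2 hQ hlQ h5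
    rw [← h4]
    exact hσ z
  have h7 : ζ ^ m = ζ ^ a := by
    rw [← hz]
    exact_mod_cast congrArg (fun t : ZB => (t : QB)) h6
  have h8 : ((2 ^ n : ℕ) : ℤ) ∣ (a : ℤ) - (m : ℤ) := by
    rw [← hζ.zpow_eq_one_iff_dvd, zpow_sub₀ (hζ.ne_zero (by positivity)), zpow_natCast,
      zpow_natCast, h7, div_self]
    exact pow_ne_zero _ (hζ.ne_zero (by positivity))
  obtain ⟨w, hw⟩ := h8
  have h9 : (2 ^ n : ℤ_[2]) ∣ (a : ℤ_[2]) - m := ⟨(w : ℤ_[2]), by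
    have := congrArg (fun t : ℤ => (t : ℤ_[2])) hw
    push_cast at this
    exact this⟩
  have h10 := dvd_sub h1 h9
  have e : (ρ σ).det - m - ((a : ℤ_[2]) - m) = (ρ σ).det - a := by ring
  rwa [e] at h10

/-! ### ramification -/

/-- an inertia element which moves the square roots of `x` -/
theorem ramQ {l : ℕ} (hl : l.Prime) {Q : Ideal ZB} (hQ : Q.IsMaximal) (hlQ : (l : ZB) ∈ Q) {x : ℤ}
    (hx : x ≠ 0) (hodd : Odd (padicValInt l x)) :
    ∃ σ ∈ Ine Q, ∀ y : QB, y ^ 2 = ((x : ℤ) : QB) → σ y = -y := by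
  have : Fact l.Prime := ⟨hl⟩
  have hp0 : ((l : ℕ) : 𝓞 ℚ) ≠ 0 := by exact_mod_cast hl.ne_zero
  have hprime : Prime ((l : ℕ) : 𝓞 ℚ) := by
    rw [← MulEquiv.prime_iff (Rat.ringOfIntegersEquiv : 𝓞 ℚ ≃* ℤ)]
    have : (Rat.ringOfIntegersEquiv : 𝓞 ℚ ≃* ℤ) ((l : ℕ) : 𝓞 ℚ) = ((l : ℕ) : ℤ) :=
      map_natCast Rat.ringOfIntegersEquiv l
    rw [this]
    exact Nat.prime_iff_prime_int.1 hl
  have hsp : (Ideal.span {((l : ℕ) : 𝓞 ℚ)}).IsPrime := (Ideal.span_singleton_prime hp0).2 hprime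
  have hmax : (Ideal.span {((l : ℕ) : 𝓞 ℚ)}).IsMaximal :=
    hsp.isMaximal (by rwa [Ne, Ideal.span_singleton_eq_bot])
  have hcomap : Q.comap (algebraMap (𝓞 ℚ) ZB) = Ideal.span {((l : ℕ) : 𝓞 ℚ)} := by
    symm
    refine hmax.eq_of_le (Ideal.comap_ne_top _ hQ.ne_top) ?_
    rw [Ideal.span_singleton_le_iff_mem, Ideal.mem_comap, map_natCast]
    exact hlQ
  let v : HeightOneSpectrum (𝓞 ℚ) := ⟨Q.comap (algebraMap (𝓞 ℚ) ZB),
    hcomap ▸ hsp, by rw [hcomap, Ne, Ideal.span_singleton_eq_bot]; exact hp0⟩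
  have hvl : v.valuation ℚ ((l : ℕ) : ℚ) = WithZero.exp (-1 : ℤ) := by
    have h1 : v.valuation ℚ (algebraMap (𝓞 ℚ) ℚ ((l : ℕ) : 𝓞 ℚ)) = v.intValuation ((l : ℕ) : 𝓞 ℚ) :=
      v.valuation_of_algebraMap _
    rw [v.intValuation_singleton hp0 hcomap, map_natCast] at h1
    exact h1
  obtain ⟨z, hz⟩ : ((l : ℤ) ^ padicValInt l x) ∣ x := padicValInt_dvd x
  have hlz : ¬ (l : ℤ) ∣ z := by
    rintro ⟨t, ht⟩
    have h1 : (l : ℤ) ^ (padicValInt l x + 1) ∣ x := ⟨t, by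
      rw [pow_succ, mul_assoc, ← ht]
      exact hz⟩
    rw [padicValInt_dvd_iff] at h1
    rcases h1 with h1 | h1
    · exact hx h1
    · omega
  have hvz : v.valuation ℚ ((z : ℤ) : ℚ) = 1 := by
    have h1 : v.valuation ℚ (algebraMap (𝓞 ℚ) ℚ ((z : ℤ) : 𝓞 ℚ)) ≤ 1 := v.valuation_le_one _
    have h2 : ¬ v.valuation ℚ (algebraMap (𝓞 ℚ) ℚ ((z : ℤ) : 𝓞 ℚ)) < 1 := by
      rw [v.valuation_lt_one_iff_mem]
      intro h3
      have h4 : algebraMap (𝓞 ℚ) ZB ((z : ℤ) : 𝓞 ℚ) ∈ Q := h3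
      rw [map_intCast] at h4
      exact int_notMem hl hQ.ne_top hlQ hlz h4
    rw [map_intCast] at h1 h2
    exact le_antisymm h1 (not_lt.1 h2)
  have hvx : v.valuation ℚ ((x : ℤ) : ℚ) = WithZero.exp (-(padicValInt l x : ℤ)) := by
    conv_lhs => rw [hz]
    push_cast
    rw [map_mul, map_pow, hvl, hvz, mul_one, ← WithZero.exp_nsmul]
    congr 1
    simp
  have hx0 : ((x : ℤ) : ℚ) ≠ 0 := by exact_mod_cast hx
  obtain ⟨σ, hσ, h⟩ := Pool.Agent.Q95.BKC.t_RAM ℚ ((x : ℤ) : ℚ) v Q hx0 (by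
    intro a ha h1
    have h2 : v.valuation ℚ a ≠ 0 := by
      rw [Ne, Valuation.zero_iff]
      exact ha
    obtain ⟨j, hj⟩ : ∃ j : ℤ, v.valuation ℚ a = WithZero.exp j :=
      ⟨WithZero.log (v.valuation ℚ a), (WithZero.exp_log h2).symm⟩
    rw [map_mul, map_pow, hvx, hj, ← WithZero.exp_nsmul, ← WithZero.exp_add,
      ← WithZero.exp_zero, WithZero.exp_inj] at h1
    obtain ⟨k, hk⟩ := hodd
    rw [hk] at h1
    push_cast at h1
    simp at h1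
    omega) hQ rfl
  refine ⟨σ, hσ, fun y hy => h y ?_⟩
  rw [hy, map_intCast]

/-- the case of an exact divisor -/
theorem ramQ1 {l : ℕ} (hl : l.Prime) {Q : Ideal ZB} (hQ : Q.IsMaximal) (hlQ : (l : ZB) ∈ Q) {x : ℤ}
    (h1 : (l : ℤ) ∣ x) (h2 : ¬ (l : ℤ) ^ 2 ∣ x) :
    ∃ σ ∈ Ine Q, ∀ y : QB, y ^ 2 = ((x : ℤ) : QB) → σ y = -y := by
  have : Fact l.Prime := ⟨hl⟩
  have hx : x ≠ 0 := by
    rintro rfl
    exact h2 (dvd_zero _)
  refine ramQ hl hQ hlQ hx ?_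
  rw [← pow_one (l : ℤ), padicValInt_dvd_iff] at h1
  rw [padicValInt_dvd_iff] at h2
  push Not at h2
  rcases h1 with h1 | h1
  · exact absurd h1 hx
  · have : padicValInt l x = 1 := by omega
    rw [this]
    exact odd_one

end Pool.Agent.Q53.HD
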