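import Pool.Agent.Q53.HD.Ram

/-!
# Project HD (helper274), job SPA
-/

set_option autoImplicit false
set_option linter.unusedVariables false

namespace Pool.Agent.Q53.HD

open NumberField IsDedekindDomain
open Pool.Agent.Q274.HD
open Pool.Agent.Q274.BKC (GK OB Dec Ine)
open Pool.Agent.Q299.HD
open scoped Matrix

theorem ine_dec {Q : Ideal ZB} {σ : GQ} (h : σ ∈ Ine Q) : σ ∈ Dec Q := by
  intro x
  have h1 := h x
  constructor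
  · intro h2
    have := Q.sub_mem h2 h1
    rwa [sub_sub_cancel] at this
  · intro h2
    have := Q.add_mem h1 h2
    rwa [sub_add_cancel] at this

/-! ### linear algebra -/

theorem quo_rel {ρ : Rep} {g : T2} {σ : GQ} {ψ : ℤ_[2]} (h : Quo ρ g σ ψ) :
    g 0 * ρ σ 0 0 + g 1 * ρ σ 1 0 = ψ * g 0 ∧ g 0 * ρ σ 0 1 + g 1 * ρ σ 1 1 = ψ * g 1 := by
  have h0 := h.2 ![1, 0]
  have h1 := h.2 ![0, 1]
  simp only [dotProduct, Matrix.mulVec, Fin.sum_univ_two, Matrix.cons_val_zero,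
    Matrix.cons_val_one, mul_one, mul_zero, add_zero, zero_add] at h0 h1
  exact ⟨h0, h1⟩

theorem ker_param {g : T2} (hg : IsUnit (g 0) ∨ IsUnit (g 1)) {v : V2} (hv : lf g v = 0) :
    ∃ c : ℚ_[2], v 0 = -(c * ((g 1 : ℤ_[2]) : ℚ_[2])) ∧ v 1 = c * ((g 0 : ℤ_[2]) : ℚ_[2]) := by
  simp only [lf, Fin.sum_univ_two] at hv
  rcases hg with hg | hg
  · have h0 : ((g 0 : ℤ_[2]) : ℚ_[2]) ≠ 0 := by
      intro h
      exact hg.ne_zero (Subtype.ext h)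
    refine ⟨v 1 / ((g 0 : ℤ_[2]) : ℚ_[2]), ?_, ?_⟩
    · field_simp
      linear_combination hv
    · field_simp
  · have h0 : ((g 1 : ℤ_[2]) : ℚ_[2]) ≠ 0 := by
      intro h
      exact hg.ne_zero (Subtype.ext h)
    refine ⟨-v 0 / ((g 1 : ℤ_[2]) : ℚ_[2]), ?_, ?_⟩
    · field_simp
    · field_simp
      linear_combination hv

/-- the action on the kernel of the form -/
theorem act_ker {ρ : Rep} {g : T2} {σ : GQ} {ψ : ℤ_[2]} (h : Quo ρ g σ ψ) {v : V2}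
    (hv : lf g v = 0) : ((ψ : ℤ_[2]) : ℚ_[2]) • act ρ σ v = (((ρ σ).det : ℤ_[2]) : ℚ_[2]) • v := by
  obtain ⟨c, h0, h1⟩ := ker_param h.1 hv
  obtain ⟨r0, r1⟩ := quo_rel h
  have q0 := congrArg (fun z : ℤ_[2] => (z : ℚ_[2])) r0
  have q1 := congrArg (fun z : ℤ_[2] => (z : ℚ_[2])) r1
  simp only [PadicInt.coe_add, PadicInt.coe_mul] at q0 q1
  have hdet : (((ρ σ).det : ℤ_[2]) : ℚ_[2]) = ((ρ σ 0 0 : ℤ_[2]) : ℚ_[2]) * ((ρ σ 1 1 : ℤ_[2]) : ℚ_[2])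
      - ((ρ σ 0 1 : ℤ_[2]) : ℚ_[2]) * ((ρ σ 1 0 : ℤ_[2]) : ℚ_[2]) := by
    rw [Matrix.det_fin_two]
    push_cast
    rfl
  rw [hdet]
  funext i
  fin_cases i
  · simp only [act, Fin.sum_univ_two, Pi.smul_apply, smul_eq_mul, Fin.zero_eta, Fin.isValue]
    rw [h0, h1]
    linear_combination (c * ((ρ σ 0 0 : ℤ_[2]) : ℚ_[2])) * q1 - (c * ((ρ σ 0 1 : ℤ_[2]) : ℚ_[2])) * q0
  · simp only [act, Fin.sum_univ_two, Pi.smul_apply, smul_eq_mul, Fin.mk_one, Fin.isValue]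
    rw [h0, h1]
    linear_combination (c * ((ρ σ 1 0 : ℤ_[2]) : ℚ_[2])) * q1 - (c * ((ρ σ 1 1 : ℤ_[2]) : ℚ_[2])) * q0

theorem lf_toV (g t : T2) : lf g (toV t) = ((g ⬝ᵥ t : ℤ_[2]) : ℚ_[2]) := by
  simp only [lf, toV, dotProduct, Fin.sum_univ_two]
  push_cast
  rfl

theorem pr_pm_dot (g t : T2) : pr (pm g) t = PadicInt.toZMod (p := 2) (g ⬝ᵥ t) := by
  simp only [pr, pm, dotProduct, map_sum, map_mul]

theorem pm_ne {g : T2} (hg : IsUnit (g 0) ∨ IsUnit (g 1)) : pm g ≠ 0 := by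
  intro h
  rw [pm_zero_iff] at h
  rcases hg with hg | hg
  · exact not_two_dvd_one ((h 0).trans hg.dvd)
  · exact not_two_dvd_one ((h 1).trans hg.dvd)

theorem form_eq1 : ∀ a b e f : ZMod 2, ¬ (a = 0 ∧ b = 0) → ¬ (e = 0 ∧ f = 0) →
    a * e + b * f = 0 → a = f ∧ b = e := by
  decide

theorem form_eq0 (a b c d e f : ZMod 2) (h1 : ¬ (a = 0 ∧ b = 0)) (h2 : ¬ (c = 0 ∧ d = 0))
    (h3 : ¬ (e = 0 ∧ f = 0)) (h4 : a * e + b * f = 0) (h5 : c * e + d * f = 0) :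
    a = c ∧ b = d := by
  obtain ⟨e1, e2⟩ := form_eq1 a b e f h1 h3 h4
  obtain ⟨e3, e4⟩ := form_eq1 c d e f h2 h3 h5
  exact ⟨e1.trans e3.symm, e2.trans e4.symm⟩

theorem form_eq (l l' v : Fin 2 → ZMod 2) (h1 : l ≠ 0) (h2 : l' ≠ 0) (h3 : v ≠ 0)
    (h4 : ∑ k, l k * v k = 0) (h5 : ∑ k, l' k * v k = 0) : l = l' := by
  have key : ∀ w : Fin 2 → ZMod 2, w ≠ 0 → ¬ (w 0 = 0 ∧ w 1 = 0) := by
    intro w hw h
    apply hw
    funext i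
    fin_cases i
    · exact h.1
    · exact h.2
  rw [Fin.sum_univ_two] at h4 h5
  obtain ⟨e0, e1⟩ := form_eq0 _ _ _ _ _ _ (key l h1) (key l' h2) (key v h3) h4 h5
  funext i
  fin_cases i
  · exact e0
  · exact e1

theorem ex_vec : ∀ l : Fin 2 → ZMod 2, ∃ v : Fin 2 → ZMod 2, v ≠ 0 ∧ ∑ k, l k * v k = 0 := by
  decide +kernel

/-- a vector killed by a form -/
theorem exists_t (l : Fin 2 → ZMod 2) : ∃ t : T2, (∃ k, ¬ (2 : ℤ_[2]) ∣ t k) ∧ pr l t = 0 := by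
  classical
  obtain ⟨v, hv, hlv⟩ := ex_vec l
  let t : T2 := fun k => if v k = 0 then 0 else 1
  have ht : pm t = v := by
    funext k
    show PadicInt.toZMod (p := 2) (if v k = 0 then 0 else 1) = v k
    have h2 : ∀ x : ZMod 2, x = 0 ∨ x = 1 := by decide
    rcases h2 (v k) with h | h
    · rw [if_pos h, map_zero, h]
    · rw [if_neg (by rw [h]; decide), map_one, h]
  refine ⟨t, ?_, ?_⟩
  · by_contra h
    push Not at h
    exact hv (ht ▸ (pm_zero_iff t).2 h)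
  · rw [pr_pm, ht]
    exact hlv

theorem dvd_dot_iff {g : T2} {l : Fin 2 → ZMod 2} (h : pm g = l) (t : T2) :
    (2 : ℤ_[2]) ∣ g ⬝ᵥ t ↔ pr l t = 0 := by
  rw [← h, pr_pm_dot, toZMod_zero_iff]

/-- the form modulo `2` from a vector -/
theorem pm_eq {g : T2} (hg : IsUnit (g 0) ∨ IsUnit (g 1)) {l : Fin 2 → ZMod 2} (hl : l ≠ 0)
    {u : T2} (hu : ∃ k, ¬ (2 : ℤ_[2]) ∣ u k) (h1 : (2 : ℤ_[2]) ∣ g ⬝ᵥ u) (h2 : pr l u = 0) :
    pm g = l := by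
  refine form_eq _ _ (pm u) (pm_ne hg) hl ?_ ?_ h2
  · intro h
    obtain ⟨k, hk⟩ := hu
    exact hk ((pm_zero_iff u).1 h k)
  · rw [← pr_pm, pr_pm_dot, toZMod_zero_iff]
    exact h1

/-! ### the indices -/

theorem three {l : ℤ} (hl : Prime l) {x y z : ℤ} (h : l ∣ x * y * z) (h2 : ¬ l ^ 2 ∣ x * y * z) :
    (l ∣ x ∧ ¬ l ^ 2 ∣ x ∧ ¬ l ∣ y ∧ ¬ l ∣ z) ∨ (l ∣ y ∧ ¬ l ^ 2 ∣ y ∧ ¬ l ∣ x ∧ ¬ l ∣ z) ∨
      (l ∣ z ∧ ¬ l ^ 2 ∣ z ∧ ¬ l ∣ x ∧ ¬ l ∣ y) := by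
  have hxy : ¬ (l ∣ x ∧ l ∣ y) := fun h => h2 (by
    rw [pow_two]; exact (mul_dvd_mul h.1 h.2).mul_right z)
  have hxz : ¬ (l ∣ x ∧ l ∣ z) := fun h => h2 (by
    rw [pow_two, mul_right_comm]; exact (mul_dvd_mul h.1 h.2).mul_right y)
  have hyz : ¬ (l ∣ y ∧ l ∣ z) := fun h => h2 (by
    rw [pow_two, mul_assoc]; exact (mul_dvd_mul h.1 h.2).mul_left x)
  have s1 : ¬ l ^ 2 ∣ x := fun h => h2 ((h.mul_right y).mul_right z)
  have s2 : ¬ l ^ 2 ∣ y := fun h => h2 ((h.mul_left x).mul_right z)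
  have s3 : ¬ l ^ 2 ∣ z := fun h => h2 (h.mul_left _)
  rcases hl.dvd_or_dvd h with h | h
  · rcases hl.dvd_or_dvd h with h | h
    · exact Or.inl ⟨h, s1, fun h' => hxy ⟨h, h'⟩, fun h' => hxz ⟨h, h'⟩⟩
    · exact Or.inr (Or.inl ⟨h, s2, fun h' => hxy ⟨h', h⟩, fun h' => hyz ⟨h, h'⟩⟩)
  · exact Or.inr (Or.inr ⟨h, s3, fun h' => hxz ⟨h', h⟩, fun h' => hyz ⟨h', h⟩⟩)

theorem exists_ijk {l : ℕ} (hl : l.Prime) {b : Fin 3 → ℤ} (h : (l : ℤ) ∣ dd b)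
    (h2 : ¬ (l : ℤ) ^ 2 ∣ dd b) : ∃ i j k : Fin 3, i ≠ j ∧ i ≠ k ∧ j ≠ k ∧ (l : ℤ) ∣ b i - b j ∧
      ¬ (l : ℤ) ^ 2 ∣ b i - b j ∧ ¬ (l : ℤ) ∣ b i - b k ∧ ¬ (l : ℤ) ∣ b j - b k := by
  have sw : ∀ i j, ¬ (l : ℤ) ∣ b i - b j → ¬ (l : ℤ) ∣ b j - b i := fun i j h => by
    rwa [← dvd_neg, neg_sub]
  rcases three (Nat.prime_iff_prime_int.1 hl) h h2 with h | h | h
  · exact ⟨0, 1, 2, by decide, by decide, by decide, h.1, h.2.1, h.2.2.1, h.2.2.2⟩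
  · exact ⟨0, 2, 1, by decide, by decide, by decide, h.1, h.2.1, h.2.2.1, sw _ _ h.2.2.2⟩
  · exact ⟨1, 2, 0, by decide, by decide, by decide, h.1, h.2.1, sw _ _ h.2.2.1, sw _ _ h.2.2.2⟩

theorem t_SPA : S_SPA := by
  classical
  intro hFRO b ρ w f L hb hdef hD l hl hl2 hdl hdl2 Q hQ hlQ
  have hQp : Q.IsPrime := hQ.isPrime
  obtain ⟨i, j, k, hij, hik, hjk, dij, sij, dik, djk⟩ := exists_ijk hl hdl hdl2
  obtain ⟨g, hg, σ₀, hσ₀, ψ₀, hψ₀, hne₀⟩ := hdef.mult l hl hl2 hdl hdl2 Q hQ hlQ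
  have hbne : ∀ a c : Fin 3, a ≠ c → b a - b c ≠ 0 := fun a c h h' => h (hb (sub_eq_zero.1 h'))
  obtain ⟨τ, hτ, hτy⟩ := ramQ1 hl hQ hlQ dij sij
  obtain ⟨ψτ, hψτ, hψτ1⟩ := hg τ (ine_dec hτ)
  have hψ1 := (hψτ1 hτ).1
  subst hψ1
  have hgu := hψτ.1
  obtain ⟨t, ht, hit⟩ := exists_t (L i)
  obtain ⟨u, hu⟩ := hD.two τ t
  obtain ⟨yij, hyij⟩ := exists_root (b i - b j)
  obtain ⟨yik, hyik⟩ := exists_root (b i - b k)
  have huj : pr (L j) u ≠ 0 := by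
    rw [Ne, ← hD.kum i j hij t u τ ht hit hu yij hyij, hτy yij hyij]
    exact neg_ne (root_ne (hbne i j hij) hyij)
  have huk : pr (L k) u = 0 :=
    (hD.kum i k hik t u τ ht hit hu yik hyik).1 (ine_fix hl hl2 hQp hlQ dik hτ hyik)
  have hune : ∃ k, ¬ (2 : ℤ_[2]) ∣ u k := by
    by_contra h
    push Not at h
    apply huj
    rw [pr_pm, (pm_zero_iff u).2 h]
    simp
  have hgdot : g ⬝ᵥ u = 0 := by
    have h1 := hψτ.2 t
    rw [hu, dotProduct_add, dotProduct_smul, one_mul, add_eq_left, smul_eq_mul] at h1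
    exact (mul_eq_zero.1 h1).resolve_left two_ne_zero
  have hpm : pm g = L k := pm_eq hgu (hD.ne k) hune (by rw [hgdot]; exact dvd_zero _) huk
  have hgt : ¬ (2 : ℤ_[2]) ∣ g ⬝ᵥ t := by
    rw [dvd_dot_iff hpm]
    intro h
    apply hik
    apply hD.inj
    refine form_eq _ _ (pm t) (hD.ne i) (hD.ne k) ?_ hit h
    intro h3
    obtain ⟨m, hm⟩ := ht
    exact hm ((pm_zero_iff t).1 h3 m)
  have hgt0 : g ⬝ᵥ t ≠ 0 := by
    intro h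
    rw [h] at hgt
    exact hgt (dvd_zero _)
  have n0 : ((g ⬝ᵥ t : ℤ_[2]) : ℚ_[2]) ≠ 0 := fun h => hgt0 (Subtype.ext h)
  have hine : ∀ σ ∈ Ine Q, ∀ v : V2, lf g v = 0 → act ρ σ v = v := by
    intro σ hσ v hv
    obtain ⟨ψ, hψ, hψ1⟩ := hg σ (ine_dec hσ)
    have h1 := act_ker hψ hv
    rw [(hψ1 hσ).1, (hψ1 hσ).2] at h1
    simpa using h1
  -- the action of `τ`
  have hτv : ∀ v : V2, act ρ τ v - v = (lf g v / ((g ⬝ᵥ t : ℤ_[2]) : ℚ_[2])) •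
      toV ((2 : ℤ_[2]) • u) := by
    intro v
    set c : ℚ_[2] := lf g v / ((g ⬝ᵥ t : ℤ_[2]) : ℚ_[2]) with hc
    have hw : lf g (v + (-c) • toV t) = 0 := by
      rw [lf_add, lf_smul, lf_toV, hc]
      field_simp
      ring
    have h1 := hine τ hτ _ hw
    rw [act_add, act_smul, act_toV, hu, toV_add] at h1
    have h3 : act ρ τ v = v + (-c) • toV t - (-c) • (toV t + toV ((2 : ℤ_[2]) • u)) := by
      rw [← h1]
      abel
    rw [h3, smul_add, neg_smul, neg_smul]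
    abel
  refine ⟨g, i, j, k, hij, hik, hjk, dij, sij, dik, djk, ?_, dvd_dot_iff hpm, hine, ?_, ?_⟩
  · intro σ hσ
    obtain ⟨ψ, hψ, -⟩ := hg σ hσ
    exact ⟨ψ, hψ⟩
  · intro v hv
    -- the form vanishes on `v`
    have hgv : lf g v = 0 := by
      have h1 := hτv v
      rw [hv τ (ine_dec hτ), sub_self] at h1
      rcases smul_eq_zero.1 h1.symm with h3 | h3
      · rw [div_eq_zero_iff] at h3
        exact h3.resolve_right n0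
      · exfalso
        have h4 : (2 : ℤ_[2]) • u = 0 := toV_inj (by rw [h3, toV_zero])
        have h5 : u = 0 := (smul_eq_zero.1 h4).resolve_left two_ne_zero
        obtain ⟨m, hm⟩ := hune
        apply hm
        rw [h5]
        exact dvd_zero _
    have h1 := act_ker hψ₀ hgv
    rw [hv σ₀ hσ₀] at h1
    have h2 : ((((ψ₀ : ℤ_[2]) : ℚ_[2])) - (((ρ σ₀).det : ℤ_[2]) : ℚ_[2])) • v = 0 := by
      rw [sub_smul, h1, sub_self]
    refine (smul_eq_zero.1 h2).resolve_left fun h3 => hne₀ ?_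
    exact (Subtype.ext (sub_eq_zero.1 h3)).symm
  · intro y hy
    obtain ⟨t', ht'⟩ := hy τ hτ
    obtain ⟨m, hm⟩ := hune
    have hum : IsUnit (u m) := by
      rw [PadicInt.isUnit_iff]
      by_contra hcon
      apply hm
      have h3 : ‖u m‖ < 1 := lt_of_le_of_ne (PadicInt.norm_le_one _) hcon
      have := (PadicInt.norm_lt_one_iff_dvd _).1 h3
      simpa using this
    obtain ⟨r, hr⟩ := hum.exists_right_inv
    rw [hτv y] at ht'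
    have h1 := congrFun ht' m
    have h2 : toV ((2 : ℤ_[2]) • u) m = 2 * ((u m : ℤ_[2]) : ℚ_[2]) := by
      show (((2 : ℤ_[2]) • u) m : ℚ_[2]) = _
      rw [Pi.smul_apply, smul_eq_mul, PadicInt.coe_mul]
      rfl
    rw [Pi.smul_apply, smul_eq_mul, h2] at h1
    have h3 : toV t' m = ((t' m : ℤ_[2]) : ℚ_[2]) := rfl
    rw [h3] at h1
    have h4 := congrArg (fun z : ℤ_[2] => (z : ℚ_[2])) hr
    simp only [PadicInt.coe_mul, PadicInt.coe_one] at h4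
    refine ⟨t' m * r * (g ⬝ᵥ t), ?_⟩
    rw [PadicInt.coe_mul, PadicInt.coe_mul, ← h1]
    have h5 : lf g y / ((g ⬝ᵥ t : ℤ_[2]) : ℚ_[2]) * (2 * ((u m : ℤ_[2]) : ℚ_[2])) *
        ((r : ℤ_[2]) : ℚ_[2]) * ((g ⬝ᵥ t : ℤ_[2]) : ℚ_[2]) =
        2 * lf g y * (((u m : ℤ_[2]) : ℚ_[2]) * ((r : ℤ_[2]) : ℚ_[2])) := by
      field_simp
    rw [h5, h4, mul_one]

end Pool.Agent.Q53.HD
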