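import Pool.Agent.Q53.HD.SPA

/-!
# Project HD (helper274): square classes and Galois elements
-/

set_option autoImplicit false
set_option linter.unusedVariables false

namespace Pool.Agent.Q53.HD

open NumberField IsDedekindDomain
open Pool.Agent.Q274.HD
open Pool.Agent.Q274.BKC (GK OB Dec Ine)
open Pool.Agent.TH344.JG (LocJ)
open Pool.Agent.Q299.HD
open scoped Matrix

/-- a maximal ideal above `l` -/
theorem exists_Q {l : ℕ} (hl : l.Prime) : ∃ Q : Ideal ZB, Q.IsMaximal ∧ (l : ZB) ∈ Q := by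
  have hp : Prime (l : ℤ) := Nat.prime_iff_prime_int.1 hl
  have hmax : (Ideal.span {(l : ℤ)}).IsMaximal :=
    PrincipalIdealRing.isMaximal_of_irreducible hp.irreducible
  have hker : RingHom.ker (algebraMap ℤ ZB) ≤ Ideal.span {(l : ℤ)} := by
    intro z hz
    rw [RingHom.mem_ker, eq_intCast] at hz
    have : z = 0 := by exact_mod_cast hz
    rw [this]
    exact Ideal.zero_mem _
  obtain ⟨Q, hQ, hQl⟩ := Ideal.exists_ideal_over_maximal_of_isIntegral (S := ZB)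
    (Ideal.span {(l : ℤ)}) hker
  refine ⟨Q, hQ, ?_⟩
  have h1 : (l : ℤ) ∈ Q.comap (algebraMap ℤ ZB) := by
    rw [hQl]
    exact Ideal.mem_span_singleton_self _
  rw [Ideal.mem_comap] at h1
  simpa using h1

/-- `σ` fixes the square roots of `z` -/
def Fx (σ : GQ) (z : ℤ) : Prop := ∀ y : QB, y ^ 2 = ((z : ℤ) : QB) → σ y = y

theorem fx_iff {σ : GQ} {z : ℤ} {y : QB} (hy : y ^ 2 = ((z : ℤ) : QB)) : Fx σ z ↔ σ y = y := by
  refine ⟨fun h => h y hy, fun h y' hy' => ?_⟩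
  rw [fix_iff σ (hy'.trans hy.symm)]
  exact h

theorem fx_mul {σ : GQ} {z z' : ℤ} (hz : z ≠ 0) (hz' : z' ≠ 0) :
    Fx σ (z * z') ↔ (Fx σ z ↔ Fx σ z') := by
  obtain ⟨y, hy⟩ := exists_root z
  obtain ⟨y', hy'⟩ := exists_root z'
  have h : (y * y') ^ 2 = ((z * z' : ℤ) : QB) := by
    rw [mul_pow, hy, hy']
    push_cast
    rfl
  rw [fx_iff h, fx_iff hy, fx_iff hy', mul_fix σ hz hz' hy hy']

theorem cls_fx {L : Fin 3 → Fin 2 → ZMod 2} {c : GQ → T2} {x : Fin 3 → ℤ} {H : Set GQ}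
    (h : Cls L c x H) {σ : GQ} (hσ : σ ∈ H) (j : Fin 3) : Fx σ (x j) ↔ pr (L j) (c σ) = 0 := by
  obtain ⟨y, hy⟩ := exists_root (x j)
  rw [fx_iff hy]
  exact h.2 j σ hσ y hy

theorem zm_iff : ∀ a b : ZMod 2, ((a = 0 ↔ b = 0) ↔ a - b = 0) := by decide

/-- the class of a difference -/
theorem cls_sub {L : Fin 3 → Fin 2 → ZMod 2} {c u : GQ → T2} {x x' : Fin 3 → ℤ}
    (h : Cls L c x Set.univ) (h' : Cls L u x' Set.univ) (σ : GQ) (j : Fin 3) :
    Fx σ (x j * x' j) ↔ pr (L j) (c σ - u σ) = 0 := by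
  rw [fx_mul (h.1 j) (h'.1 j), cls_fx h (Set.mem_univ σ), cls_fx h' (Set.mem_univ σ), zm_iff,
    pr_sub]

/-- the sum of the three forms -/
theorem sum_ijk {b : Fin 3 → ℤ} {ρ : Rep} {L : Fin 3 → Fin 2 → ZMod 2} (hD : Dat b ρ L) (t : T2)
    {i j k : Fin 3} (hij : i ≠ j) (hik : i ≠ k) (hjk : j ≠ k) :
    pr (L i) t + pr (L j) t + pr (L k) t = 0 := by
  have h := sum_pr hD t
  have e : pr (L i) t + pr (L j) t + pr (L k) t = pr (L 0) t + pr (L 1) t + pr (L 2) t := by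
    fin_cases i <;> fin_cases j <;> fin_cases k <;>
      first | exact absurd rfl hij | exact absurd rfl hik | exact absurd rfl hjk | (simp; try ring)
  rw [e, h]

theorem zm_sum : ∀ a b c : ZMod 2, a + b + c = 0 → c = 0 → (a = 0 ↔ b = 0) := by decide

/-- from `z = x x'` and `x'` to `x` -/
theorem locJ_of {K : Type} [Field K] [CharZero K] {b : Fin 3 → ℤ} (hb : Function.Injective b)
    {x x' : Fin 3 → ℤ} (hx : ∀ j, x j ≠ 0) (hx' : ∀ j, x' j ≠ 0)
    (h : LocJ K b fun j => x j * x' j) (h' : LocJ K b x') : LocJ K b x := by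
  rw [Pool.Agent.Y723.PT.locJ_iff] at h h' ⊢
  have he : Function.Injective fun l => ((b l : ℤ) : K) := fun x y hxy =>
    hb (Int.cast_injective (α := K) hxy)
  have h1 := Pool.Agent.Y723.PT.LG.mul (by decide) he h h'
  have nx : ∀ j, ((x j : ℤ) : K) ≠ 0 := fun j => by exact_mod_cast hx j
  have nx' : ∀ j, ((x' j : ℤ) : K) ≠ 0 := fun j => by exact_mod_cast hx' j
  refine h1.congr (fun j => ?_) fun j => ?_
  · push_cast
    exact mul_ne_zero (mul_ne_zero (nx j) (nx' j)) (nx' j)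
  · refine ⟨((x j : ℤ) : K) * ((x' j : ℤ) : K), ?_⟩
    push_cast
    ring

/-- the form on the vector space -/
theorem lf_act {ρ : Rep} {g : T2} {σ : GQ} {ψ : ℤ_[2]} (h : Quo ρ g σ ψ) (v : V2) :
    lf g (act ρ σ v) = ((ψ : ℤ_[2]) : ℚ_[2]) * lf g v := by
  obtain ⟨r0, r1⟩ := quo_rel h
  have q0 := congrArg (fun z : ℤ_[2] => (z : ℚ_[2])) r0
  have q1 := congrArg (fun z : ℤ_[2] => (z : ℚ_[2])) r1
  simp only [PadicInt.coe_add, PadicInt.coe_mul] at q0 q1
  simp only [lf, act, Fin.sum_univ_two]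
  linear_combination (v 0) * q0 + (v 1) * q1

theorem lf_sub (g : T2) (v v' : V2) : lf g (v - v') = lf g v - lf g v' := by
  simp only [lf, Pi.sub_apply, mul_sub, Finset.sum_sub_distrib]

/-- the form is surjective -/
theorem lf_surj {g : T2} (hg : IsUnit (g 0) ∨ IsUnit (g 1)) (s : ℤ_[2]) : ∃ t : T2, g ⬝ᵥ t = s := by
  rcases hg with hg | hg
  · obtain ⟨r, hr⟩ := hg.exists_right_inv
    refine ⟨![r * s, 0], ?_⟩
    simp only [dotProduct, Fin.sum_univ_two, Matrix.cons_val_zero, Matrix.cons_val_one, mul_zero,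
      add_zero]
    rw [← mul_assoc, hr, one_mul]
  · obtain ⟨r, hr⟩ := hg.exists_right_inv
    refine ⟨![0, r * s], ?_⟩
    simp only [dotProduct, Fin.sum_univ_two, Matrix.cons_val_zero, Matrix.cons_val_one, mul_zero,
      zero_add]
    rw [← mul_assoc, hr, one_mul]

/-- half of the coboundary of an integral vector -/
theorem toV_half {ρ : Rep} {σ : GQ} {t u : T2} (hu : ρ σ *ᵥ t = t + (2 : ℤ_[2]) • u) :
    toV u = act ρ σ ((1 / 2 : ℚ_[2]) • toV t) - (1 / 2 : ℚ_[2]) • toV t := by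
  rw [act_smul, act_toV, hu, toV_add, ← smul_sub, add_sub_cancel_left]
  funext i
  simp only [toV, Pi.smul_apply, smul_eq_mul]
  push_cast
  have : ((2 : ℤ_[2]) : ℚ_[2]) = 2 := rfl
  field_simp
  rfl

end Pool.Agent.Q53.HD
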