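import Pool.Agent.Q53.HD.Sqr
import Pool.Agent.Q53.HD.ObsA

/-!
# Project HD (helper274), job TWO: lemmas
-/

set_option autoImplicit false
set_option linter.unusedVariables false

namespace Pool.Agent.Q53.HD

open NumberField IsDedekindDomain
open Pool.Agent.Q274.HD
open Pool.Agent.Q274.BKC (GK OB Dec Ine)
open Pool.Agent.TH344.JG (LocJ)
open Pool.Agent.Q299.HD
open scoped Matrix

/-! ### Reduction modulo four -/

/-- reduction modulo four -/
noncomputable def R4 : ℤ_[2] →+* ZMod 4 := PadicInt.toZModPow (p := 2) 2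

theorem R4_zero (z : ℤ_[2]) : R4 z = 0 ↔ (4 : ℤ_[2]) ∣ z := by
  have h1 : z ∈ RingHom.ker (PadicInt.toZModPow (p := 2) 2) ↔ (4 : ℤ_[2]) ∣ z := by
    rw [PadicInt.ker_toZModPow, Ideal.mem_span_singleton]
    have h6 : ((2 : ℕ) : ℤ_[2]) ^ 2 = 4 := by norm_num
    rw [h6]
  exact h1

theorem R4_val (z : ℤ_[2]) : (4 : ℤ_[2]) ∣ z - ((R4 z).val : ℕ) := by
  rw [← R4_zero, map_sub, map_natCast, ZMod.natCast_zmod_val, sub_self]

theorem toZMod_nat (n : ℕ) : PadicInt.toZMod (p := 2) ((n : ℕ) : ℤ_[2]) = (n : ZMod 2) :=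
  map_natCast _ n

theorem R4_mod (z : ℤ_[2]) : PadicInt.toZMod (p := 2) z = 0 ↔ (R4 z).val % 2 = 0 := by
  obtain ⟨k, hk⟩ := R4_val z
  have h1 : z = ((R4 z).val : ℕ) + 4 * k := by linear_combination hk
  have h2 : PadicInt.toZMod (p := 2) z = (((R4 z).val : ℕ) : ZMod 2) := by
    conv_lhs => rw [h1]
    rw [map_add, map_mul, toZMod_nat]
    have h3 : PadicInt.toZMod (p := 2) (4 : ℤ_[2]) = 0 := by
      have h4 := toZMod_nat 4
      rw [show ((4 : ℕ) : ℤ_[2]) = 4 by norm_num] at h4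
      rw [h4]
      decide
    rw [h3, zero_mul, add_zero]
  rw [h2, ZMod.natCast_eq_zero_iff]
  omega

theorem lc_R4 {X : Type*} [TopologicalSpace X] {g : X → ℤ_[2]} (hg : Continuous g) :
    IsLocallyConstant fun x => R4 (g x) := by
  rw [IsLocallyConstant.iff_exists_open]
  intro x
  refine ⟨g ⁻¹' Metric.ball (g x) (1 / 4), Metric.isOpen_ball.preimage hg,
    Metric.mem_ball_self (by norm_num), fun y hy => ?_⟩
  have h1 : ‖g y - g x‖ < 1 / 4 := by
    rw [← dist_eq_norm]
    exact hy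
  have h2 : (4 : ℤ_[2]) ∣ g y - g x := by
    have h3 := (PadicInt.norm_le_pow_iff_mem_span_pow (p := 2) (g y - g x) 2).1 (by
      refine h1.le.trans ?_
      norm_num)
    rw [Ideal.mem_span_singleton] at h3
    have h6 : ((2 : ℕ) : ℤ_[2]) ^ 2 = 4 := by norm_num
    rwa [h6] at h3
  rw [← R4_zero, map_sub, sub_eq_zero] at h2
  exact h2

/-! ### The restriction -/

theorem fix_adjoin {S : Set QB} {σ : GQ} (h : ∀ x ∈ S, σ x = x) :
    ∀ x ∈ IntermediateField.adjoin ℚ S, σ x = x := by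
  intro x hx
  have h3 : IntermediateField.adjoin ℚ S ≤
      IntermediateField.fixedField (Subgroup.zpowers σ) := by
    rw [IntermediateField.adjoin_le_iff]
    rintro y hy ⟨τ, hτ⟩
    obtain ⟨n, rfl⟩ := hτ
    have h4 : σ ∈ MulAction.stabilizer GQ y := h y hy
    exact (MulAction.stabilizer GQ y).zpow_mem h4 n
  exact h3 hx ⟨σ, Subgroup.mem_zpowers σ⟩

theorem res_cont {ι : QB →+* Om} {res : G2 → GQ} (h : ∀ τ x, τ (ι x) = ι (res τ x)) :
    (∀ τ τ', res (τ * τ') = res τ * res τ') ∧ Continuous res := by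
  have hmul : ∀ τ τ', res (τ * τ') = res τ * res τ' := by
    intro τ τ'
    apply AlgEquiv.ext
    intro x
    apply ι.injective
    rw [← h, AlgEquiv.mul_apply, AlgEquiv.mul_apply, ← h τ, ← h τ']
  refine ⟨hmul, ?_⟩
  let R : G2 →* GQ := MonoidHom.mk' res hmul
  have hR : Continuous R := by
    refine continuous_of_continuousAt_one R ?_
    rw [ContinuousAt, map_one]
    intro s hs
    rw [krullTopology_mem_nhds_one_iff] at hs
    obtain ⟨E, hE, hEs⟩ := hs
    have hfg : E.FG := (IntermediateField.essFiniteType_iff (K := E)).1 inferInstance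
    obtain ⟨S, hS⟩ := hfg
    have h1 : (⋂ x ∈ S, {τ : G2 | τ (ι x) = ι x}) ∈ nhds (1 : G2) := by
      rw [Filter.biInter_finset_mem]
      intro x hx
      exact (eval_open (ι x) (ι x)).mem_nhds rfl
    rw [Filter.mem_map]
    refine Filter.mem_of_superset h1 ?_
    intro τ hτ
    rw [Set.mem_iInter₂] at hτ
    apply hEs
    change res τ ∈ E.fixingSubgroup
    rw [IntermediateField.mem_fixingSubgroup_iff, ← hS]
    refine fix_adjoin fun x hx => ?_
    apply ι.injective
    rw [← h]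
    exact hτ x hx
  exact hR

/-! ### Linear algebra -/

/-- the generator of the kernel of a form -/
noncomputable def ev (f : T2) : T2 := ![-(f 1), f 0]

theorem dot_ev (f : T2) : f ⬝ᵥ ev f = 0 := by
  simp only [ev, dotProduct, Fin.sum_univ_two, Matrix.cons_val_zero, Matrix.cons_val_one]
  ring

theorem ker_T {f : T2} (hf : IsUnit (f 0) ∨ IsUnit (f 1)) {t : T2} (ht : f ⬝ᵥ t = 0) :
    ∃ a : ℤ_[2], t = a • ev f := by
  simp only [dotProduct, Fin.sum_univ_two] at ht
  rcases hf with h | h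
  · obtain ⟨r, hr⟩ := h.exists_right_inv
    refine ⟨r * t 1, ?_⟩
    funext k
    fin_cases k
    · change t 0 = (r * t 1) * (-(f 1))
      linear_combination r * ht - t 0 * hr
    · change t 1 = (r * t 1) * f 0
      linear_combination -t 1 * hr
  · obtain ⟨r, hr⟩ := h.exists_right_inv
    refine ⟨-(r * t 0), ?_⟩
    funext k
    fin_cases k
    · change t 0 = -(r * t 0) * (-(f 1))
      linear_combination -t 0 * hr
    · change t 1 = -(r * t 0) * f 0
      linear_combination r * ht - t 1 * hr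

theorem dual_ev {f : T2} (hf : IsUnit (f 0) ∨ IsUnit (f 1)) : ∃ g : T2, g ⬝ᵥ ev f = 1 := by
  rcases hf with h | h
  · obtain ⟨r, hr⟩ := h.exists_right_inv
    refine ⟨![0, r], ?_⟩
    simp only [ev, dotProduct, Fin.sum_univ_two, Matrix.cons_val_zero, Matrix.cons_val_one]
    linear_combination hr
  · obtain ⟨r, hr⟩ := h.exists_right_inv
    refine ⟨![-r, 0], ?_⟩
    simp only [ev, dotProduct, Fin.sum_univ_two, Matrix.cons_val_zero, Matrix.cons_val_one]
    linear_combination hr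

theorem det_mul {ρ : Rep} {f : T2} {σ : GQ} {ψ χ : ℤ_[2]} (h : Quo ρ f σ ψ)
    (hχ : ρ σ *ᵥ ev f = χ • ev f) : (ρ σ).det = χ * ψ := by
  obtain ⟨r0, r1⟩ := quo_rel h
  have e0 := congrFun hχ 0
  have e1 := congrFun hχ 1
  simp only [ev, Matrix.mulVec, dotProduct, Fin.sum_univ_two, Matrix.cons_val_zero,
    Matrix.cons_val_one, Pi.smul_apply, smul_eq_mul] at e0 e1
  rw [Matrix.det_fin_two]
  rcases h.1 with hf | hf
  · apply hf.mul_left_cancel
    linear_combination (ρ σ 0 0) * e1 - (ρ σ 1 0) * e0 + χ * r0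
  · apply hf.mul_left_cancel
    linear_combination (ρ σ 0 1) * e1 - (ρ σ 1 1) * e0 + χ * r1

end Pool.Agent.Q53.HD
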